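import Pool.Agent.MP_a6f858_co.AU.Core

/-! Windows and arcs on the binary ring. -/

open Set Submodule
open scoped Matroid

namespace Pool.Agent.MP_a6f858_co.AU

theorem rot_one {k : ℕ} (hk : 2 < k) : ∃ σ : (Fin k → F2) →ₗ[F2] (Fin k → F2),
    σ (tv k) = tv k ∧ ∀ i < k, σ (xv k i) = xv k ((i + 1) % k) := by
  refine ⟨LinearMap.pi fun c => if c.val = 0 then co k 0 else if c.val = 1 then co k (k - 1)
    else co k (k - 1) + co k (c.val - 1), funext fun c => ?_, fun i hi => funext fun c => ?_⟩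
  · have hc := c.2
    simp only [LinearMap.pi_apply]
    split_ifs with h0 h1
    · rw [co_tv (by omega)]; simp [tv, h0]
    · rw [co_tv (by omega), if_neg (by omega)]; simp [tv, h0]
    · rw [LinearMap.add_apply, co_tv (by omega), co_tv (by omega), if_neg (by omega),
        if_neg (by omega)]; simp [tv, h0]
  · have hc := c.2
    have hm : (i + 1) % k = if i + 1 = k then 0 else i + 1 := by
      split_ifs with h
      · rw [h, Nat.mod_self]
      · exact Nat.mod_eq_of_lt (by omega)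
    simp only [LinearMap.pi_apply]
    rw [hm]
    split_ifs with h0 h1 h2 h3 h4
    all_goals
      simp only [LinearMap.add_apply, co_xv (show 0 < k by omega), co_xv (show k - 1 < k by omega),
        co_xv (show c.val - 1 < k by omega)]
      simp only [xv]
      split_ifs <;> first | omega | decide | (simp only [false_or, true_or, not_true] at *; try omega)

theorem rot {k : ℕ} (hk : 2 < k) (s : ℕ) : ∃ σ : (Fin k → F2) →ₗ[F2] (Fin k → F2),
    σ (tv k) = tv k ∧ ∀ i < k, σ (xv k i) = xv k ((i + s) % k) := by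
  induction s with
  | zero => exact ⟨LinearMap.id, rfl, fun i hi => by simp [Nat.mod_eq_of_lt hi]⟩
  | succ s ih =>
    obtain ⟨σ, h1, h2⟩ := ih
    obtain ⟨τ, h3, h4⟩ := rot_one hk
    refine ⟨τ ∘ₗ σ, by simp [h1, h3], fun i hi => ?_⟩
    rw [LinearMap.comp_apply, h2 i hi, h4 _ (Nat.mod_lt _ (by omega)), Nat.mod_add_mod, add_assoc]

theorem rot_vv {k : ℕ} (hk : 2 < k) {s : ℕ} (hs : s ≤ k) :
    ∃ σ : (Fin k → F2) →ₗ[F2] (Fin k → F2), ∀ q < 2 * k,
      σ (vv k q) = vv k (if 2 * s ≤ q then q - 2 * s else q + 2 * k - 2 * s) := by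
  obtain ⟨σ, h1, h2⟩ := rot hk (k - s)
  refine ⟨σ, fun q hq => ?_⟩
  have e1 : (if 2 * s ≤ q then q - 2 * s else q + 2 * k - 2 * s) % 2 = q % 2 := by
    split_ifs <;> omega
  have e2 : (if 2 * s ≤ q then q - 2 * s else q + 2 * k - 2 * s) / 2 = (q / 2 + (k - s)) % k := by
    split_ifs
    · rw [show q / 2 + (k - s) = (q - 2 * s) / 2 + k by omega, Nat.add_mod_right,
        Nat.mod_eq_of_lt (by omega)]
    · rw [Nat.mod_eq_of_lt (by omega)]; omega
  unfold vv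
  rw [e1, e2]
  split_ifs
  · exact h2 _ (by omega)
  · rw [map_add, map_add, h1, h2 _ (by omega), h2 _ (Nat.mod_lt _ (by omega)), Nat.mod_add_mod,
      Nat.mod_add_mod, add_right_comm (q / 2)]

/-- The odd positions outside a window of ten positions. -/
def Cw (k s : ℕ) : Set ℕ := {q | q < 2 * k ∧ q % 2 = 1 ∧ ¬ (2 * s ≤ q ∧ q < 2 * s + 10)}

theorem window {j k s : ℕ} (hk : k = 4 * j + 7) (hs : s + 5 ≤ k) : (Cw k s).ncard + 5 = k ∧
    ∀ J ⊆ Ico (2 * s) (2 * s + 10), R10.Indep ((fun q => q - 2 * s) '' J) →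
      LinearIndepOn F2 (vv k) (J ∪ Cw k s) := by
  obtain ⟨σ, hσ⟩ := rot_vv (k := k) (by omega) (s := s) (by omega)
  set f : ℕ → ℕ := fun q => if 2 * s ≤ q then q - 2 * s else q + 2 * k - 2 * s with hf
  have hb : BijOn f (Cw k s) (CC k) := by
    refine ⟨fun q ⟨h1, h2, h3⟩ => ?_, fun q ⟨h1, h2, h3⟩ p ⟨h4, h5, h6⟩ h => ?_,
      fun q ⟨h1, h2, h3⟩ => ?_⟩
    · simp only [CC, mem_ofPred_eq, hf]; split_ifs <;> omega
    · simp only [hf] at h; split_ifs at h <;> omega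
    · refine ⟨if q + 2 * s < 2 * k then q + 2 * s else q + 2 * s - 2 * k, ?_, ?_⟩
      · simp only [Cw, mem_ofPred_eq]; split_ifs <;> omega
      · simp only [hf]; split_ifs <;> omega
  refine ⟨by rw [← hb.injOn.ncard_image, hb.image_eq, CC_ncard]; omega, fun J hJ h => ?_⟩
  subst hk
  refine indep_union_of_map (phi _ ∘ₗ σ) (LinearIndepOn.of_comp σ ?_) (fun c hc => ?_) ?_
  · exact (LinearIndepOn.comp_of_image (v := vv _) (hb.image_eq.symm ▸ indep_CC _) hb.injOn).congr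
      fun q hq => (hσ q hq.1).symm
  · rw [LinearMap.comp_apply, hσ c hc.1]
    exact phi_CC j _ (hb.mapsTo hc)
  · rw [R10, linM_indep] at h
    refine (h.2.comp_of_image fun a ha b hb h => ?_).congr fun q hq => ?_
    · have := (hJ ha).1; have := (hJ hb).1
      omega
    · obtain ⟨h1, h2⟩ := hJ hq
      simp only [Function.comp, LinearMap.comp_apply]
      rw [hσ q (by omega), if_pos h1, phi_vv_small j (by omega)]

theorem exists_M {N : Matroid ℕ} {j k h : ℕ} (hk : k = 4 * j + 7) (hh : 5 * h + 1 ≤ k)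
    (hf : N.E.Finite) (hE : Iio (2 * k) \ {2 * k - 2} ⊆ N.E)
    (hb : ∀ I ⊆ Iio (2 * k) \ {2 * k - 2}, (N.Indep I ↔ LinearIndepOn F2 (vv k) I))
    (hZ : (N.E \ Iio (2 * k)).ncard < h) : ∃ M, M ≤m N ∧ M.E = Iio (10 * h) ∧
      ∀ P, P ≤m N → HasM M P → ∃ N₂, N₂ ≤m P ∧ Wide N₂ ∧ N₂.E ⊆ Iio (2 * k) := by
  have hC : {q | 10 * h ≤ q ∧ q < 2 * k ∧ q % 2 = 1} ⊆ CC k := fun q ⟨h1, h2⟩ => ⟨by omega, h2⟩
  have hR : ∀ I : Set ℕ, (∀ q ∈ I, q < 10 * h ∨ q < 2 * k ∧ q % 2 = 1) →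
      I ⊆ Iio (2 * k) \ {2 * k - 2} := fun I H q hq => by
    have := H q hq
    simp only [mem_sdiff, mem_Iio, mem_singleton_iff]; omega
  obtain ⟨M, m1, m2, m3⟩ := exists_minor ((hb _ (hR _ fun q hq => Or.inr hq.2)).2
    ((indep_CC k).mono hC)) ((hR (Iio (10 * h)) fun q hq => Or.inl hq).trans hE)
    (Set.disjoint_left.2 fun q h1 h2 => absurd h1 (not_lt.2 h2.1))
  refine ⟨M, m1, m2, fun P hP ⟨N₁, n1, f, hf1, hi⟩ => ?_⟩
  have hA : N₁.E \ Iio (2 * k) ⊆ N.E \ Iio (2 * k) := sdiff_subset_sdiff_left (n1.trans hP).subset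
  have hAf : (N.E \ Iio (2 * k)).Finite := hf.subset sdiff_subset
  obtain ⟨s, hs, hsA⟩ : ∃ s ∈ Iio h, s ∉ (fun q => f q / 10) '' (N₁.E \ Iio (2 * k)) :=
    exists_mem_notMem_of_ncard_lt_ncard (by
      have := ncard_image_le (f := fun q => f q / 10) (hAf.subset hA)
      have := ncard_le_ncard hA hAf
      simp only [ncard_Iio_nat]; omega) ((hAf.subset hA).image _)
  have hs' : s < h := hs
  obtain ⟨c1, c2⟩ := window (s := 5 * s) hk (by omega)
  have key : ∀ J ⊆ Ico (2 * (5 * s)) (2 * (5 * s) + 10), (M.Indep (J ∪ Cw k (5 * s) ∩ Iio (10 * h))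
      ↔ LinearIndepOn F2 (vv k) (J ∪ Cw k (5 * s))) := fun J hJ => by
    have e : J ∪ Cw k (5 * s) ∩ Iio (10 * h) ∪ {q | 10 * h ≤ q ∧ q < 2 * k ∧ q % 2 = 1} =
        J ∪ Cw k (5 * s) := by
      rw [union_assoc]; congr 1; ext q
      simp only [Cw, mem_union, mem_inter_iff, mem_ofPred_eq, mem_Iio]; omega
    rw [m3 _ (union_subset (fun q hq => by have := (hJ hq).2; show q < _; omega)
      inter_subset_right), e, hb _ (hR _ ?_)]
    rintro q (hq | hq)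
    · have := (hJ hq).2; omega
    · exact Or.inr ⟨hq.1, hq.2.1⟩
  obtain ⟨M', w1, w2, w3⟩ := exists_minor (P := M) (C := Cw k (5 * s) ∩ Iio (10 * h))
    (T := Ico (2 * (5 * s)) (2 * (5 * s) + 10))
    (by simpa using (key ∅ (empty_subset _)).2 (c2 ∅ (empty_subset _) (by simp)))
    (by rw [m2]; intro q hq; have := hq.2; show q < _; omega)
    (Set.disjoint_left.2 fun q h1 h2 => h2.1.2.2 h1)
  have hw : Wide M' := by
    refine wide_of_hom R10_wide (fun q => q - 2 * (5 * s)) ?_ (fun B hB => ?_) fun I hI H => ?_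
    · rw [w2]
      refine ⟨fun q ⟨h1, h2⟩ => ?_, fun q ⟨h1, h2⟩ p ⟨h3, h4⟩ H => ?_, fun q hq => ?_⟩
      · show q - _ < 10; omega
      · simp only at H; omega
      · have : q < 10 := hq
        exact ⟨q + 2 * (5 * s), ⟨by omega, by omega⟩, by simp⟩
    · have hB' := w2 ▸ hB.subset_ground
      have := ncard_le_dim k ((key B hB').1 ((w3 B hB').1 hB))
      rw [ncard_union_eq (Set.disjoint_left.2 fun q h1 h2 => h2.2.2 (hB' h1))
        ((finite_Ico _ _).subset hB') ((finite_Iio (2 * k)).subset fun q hq => hq.1)] at this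
      omega
    · rw [w2] at hI
      exact (w3 I hI).2 ((key I hI).2 (c2 I hI H))
  obtain ⟨N₂, p1, p2, p3⟩ := pull hf1 hi w1 hw
  refine ⟨N₂, p1.trans n1, p2, fun e he => by_contra fun h' => hsA ⟨e, ⟨p1.subset he, h'⟩, ?_⟩⟩
  have := w2 ▸ p3 e he
  obtain ⟨h1, h2⟩ := this
  show f e / 10 = s
  omega

/-- The position on the ring: elements outside the ring sit at position `2k - 2`. -/
def pos (k q : ℕ) : ℕ := if q < 2 * k then q else 2 * k - 2

theorem arcG1 (k : ℕ) {a b : ℕ} (hab : a ≤ b) : ∃ G : Set ℕ, G.Finite ∧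
    G.ncard + a / 2 ≤ b / 2 + 1 ∧ ∀ q < 2 * k, a ≤ q ∧ q < b → q / 2 ∈ G ∧ (q + 1) / 2 % k ∈ G := by
  refine ⟨(fun i => i % k) '' Icc (a / 2) (b / 2), (finite_Icc _ _).image _, ?_, fun q h3 h2 =>
    ⟨⟨q / 2, ⟨by omega, by omega⟩, Nat.mod_eq_of_lt (by omega)⟩,
      ⟨(q + 1) / 2, ⟨by omega, by omega⟩, rfl⟩⟩⟩
  have h2 := ncard_image_le (f := fun i => i % k) (finite_Icc (a / 2) (b / 2))
  have h3 : (Icc (a / 2) (b / 2)).ncard = b / 2 + 1 - a / 2 := by simp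
  omega

theorem arcG2 {k : ℕ} (a : ℕ) {b : ℕ} (hb : b ≤ 2 * k) : ∃ G : Set ℕ, G.Finite ∧
    G.ncard + b / 2 ≤ k + a / 2 + 1 ∧
      ∀ q < 2 * k, b ≤ q ∨ q < a → q / 2 ∈ G ∧ (q + 1) / 2 % k ∈ G := by
  refine ⟨(fun i => i % k) '' Icc (b / 2) (k + a / 2), (finite_Icc _ _).image _, ?_, ?_⟩
  · have h2 := ncard_image_le (f := fun i => i % k) (finite_Icc (b / 2) (k + a / 2))
    have h3 : (Icc (b / 2) (k + a / 2)).ncard = k + a / 2 + 1 - b / 2 := by simp
    omega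
  · rintro q h3 (h2 | h2)
    · exact ⟨⟨q / 2, ⟨by omega, by omega⟩, Nat.mod_eq_of_lt (by omega)⟩,
        ⟨(q + 1) / 2, ⟨by omega, by omega⟩, rfl⟩⟩
    · refine ⟨⟨k + q / 2, ⟨by omega, by omega⟩, ?_⟩,
        ⟨k + (q + 1) / 2, ⟨by omega, by omega⟩, ?_⟩⟩
      · simp only [Nat.add_mod_left]; exact Nat.mod_eq_of_lt (by omega)
      · simp only [Nat.add_mod_left]

theorem no_wide {N N₂ : Matroid ℕ} {k ρ p : ℕ} (hf : N.E.Finite) (hpk : p < 2 * k)
    (hp : p % 2 = 1) (hg : ∀ Q, N.Indep Q → ∀ G : Set ℕ, G.Finite →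
      (∀ q ∈ Q, pos k q / 2 ∈ G ∧ (pos k q + 1) / 2 % k ∈ G) →
        Q.ncard ≤ G.ncard + 1 + ρ ∧ (Q ⊆ Iio (2 * k) → Q.ncard ≤ G.ncard + 1))
    {B : Set ℕ} (hB : N.Indep B) (hpB : p ∉ B) (hc : B.ncard = k + ρ) (h : N₂ ≤m N ＼ {p})
    (hE : N₂.E ⊆ Iio (2 * k)) : ¬ Wide N₂ := by
  intro hN
  have hPf : (N ＼ {p}).E.Finite := hf.subset sdiff_subset
  have hpos : ∀ q, pos k q < 2 * k ∧ (q ≠ p → pos k q ≠ p) ∧
      (¬ q < 2 * k → pos k q = 2 * k - 2) := fun q => by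
    unfold pos; split_ifs <;> omega
  have split : ∀ a b a' b', a ≤ b → b' ≤ 2 * k →
      (∀ q, q ≠ p → ¬ (a ≤ q ∧ q < b) → b' ≤ q ∨ q < a') → (N₂.E ∩ Ico a b).ncard = 5 →
      a / 2 + b' / 2 ≤ b / 2 + a' / 2 := fun a b a' b' h1 h2 h3 h4 => by
    obtain ⟨Q, hQ, Q', hQ', B', hQi, hQ'i, hB', h5⟩ := wide_minor hPf h hN (pos k ⁻¹' Ico a b) (by
      rw [← h4]; congr 1; ext q
      refine and_congr_right fun hq => ?_
      rw [mem_preimage, pos, if_pos (show q < 2 * k from hE hq)])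
    have h6 := base_ge hPf (Matroid.delete_indep_iff.2 ⟨hB, disjoint_singleton_right.2 hpB⟩) hB'
    rw [Matroid.delete_indep_iff] at hQi hQ'i
    obtain ⟨G, g1, g2, g3⟩ := arcG1 k h1
    obtain ⟨G', g4, g5, g6⟩ := arcG2 a' h2
    obtain ⟨b1, b2⟩ := hg Q hQi.1 G g1 fun q hq => g3 _ (hpos q).1 (hQ hq)
    obtain ⟨b3, b4⟩ := hg Q' hQ'i.1 G' g4 fun q hq => g6 _ (hpos q).1 (h3 _ ((hpos q).2.1
      fun e => disjoint_singleton_right.1 hQ'i.2 (e ▸ hq)) (hQ' hq))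
    by_cases h7 : 2 * k - 2 ∈ Ico a b
    · have := b4 fun q hq => by_contra fun h' => hQ' hq (by rwa [mem_preimage, (hpos q).2.2 h'])
      omega
    · have := b2 fun q hq => by_contra fun h' => h7 ((hpos q).2.2 h' ▸ hQ hq)
      omega
  rcases choose_arc hE (fun h' => (h.subset h').2 rfl) hpk hN.1 with
    ⟨m, h1, h2, h3⟩ | ⟨m, h1, h3⟩
  · have := split (p + 1) m p m h1 h2 (fun q _ _ => by omega) h3
    omega
  · have := split m p m (p + 1) h1 (by omega) (fun q _ _ => by omega) h3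
    omega

end Pool.Agent.MP_a6f858_co.AU
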