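import Pool.Agent.MP_a6f858_co.AU.Ring

/-! The binary gadget: uniform matroids that are minors of the rank three matroid on six points. -/

open Set Submodule
open scoped Matroid

namespace Pool.Agent.MP_a6f858_co.AU

theorem ind3 {V : Type*} [AddCommGroup V] [Module F2 V] {v : ℕ → V} {J : Finset ℕ}
    (h3 : J.card ≤ 3) (hi : InjOn v J) (h0 : ∀ q ∈ J, v q ≠ 0)
    (hs : J.card = 3 → ∑ q ∈ J, v q ≠ 0) : LinearIndepOn F2 v J := by
  refine indep_iff_zero_sum v J fun Z hZ h => ?_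
  rw [Finset.mem_powerset] at hZ
  have h1 := Finset.card_le_card hZ
  obtain h2 | h2 | h2 | h2 : Z.card = 0 ∨ Z.card = 1 ∨ Z.card = 2 ∨ Z.card = 3 := by omega
  · exact Finset.card_eq_zero.1 h2
  · obtain ⟨a, rfl⟩ := Finset.card_eq_one.1 h2
    exact absurd (by simpa using h) (h0 a (hZ (by simp)))
  · obtain ⟨a, b, hab, rfl⟩ := Finset.card_eq_two.1 h2
    rw [Finset.sum_pair hab, add_eq_zero_iff_eq_neg, ZModModule.neg_eq_self] at h
    exact absurd (hi (hZ (by simp)) (hZ (by simp)) h) hab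
  · rw [Finset.eq_of_subset_of_card_le hZ (by omega)] at h
    exact absurd h (hs (by omega))

/-- Six points of the Fano plane. -/
def U6 (i : ℕ) : F2 × F2 × F2 :=
  (if i % 2 = 0 then 0 else 1, if i / 2 = 0 then (1, 0) else if i / 2 = 1 then (0, 1) else (1, 1))

theorem U6_check : ∀ i < 6, U6 i ≠ 0 ∧ U6 i ≠ (1, 0) ∧ ∀ j < 6, U6 i = U6 j → i = j := by
  decide +kernel

theorem unb_small {r n : ℕ} (h1 : 2 ≤ r) (h2 : r ≤ 3) (h3 : r + 2 ≤ n) (h4 : n ≤ r + 3) :
    Unb r n := by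
  classical
  have hρ : Module.finrank F2 (F2 × F2) = 2 := by simp
  refine ring_inf (F := F2) (W := F2 × F2) (m := 6) (r₀ := 3) (n₀ := 6) h2 (by omega) (by omega)
    fun k hk => ?_
  set u : ℕ → F2 × F2 × F2 × F2 := fun q => if q = 0 then (0, 1, 0) else if q = 3 then (1, 0, 0)
    else ((U6 (q - 2 * k)).1, 1, (U6 (q - 2 * k)).2) with hu
  have e1 : ∀ z ∈ Ico (2 * k) (2 * k + 6), u z = ((U6 (z - 2 * k)).1, 1, (U6 (z - 2 * k)).2) :=
    fun z ⟨a, b⟩ => by simp only [hu]; rw [if_neg (by omega), if_neg (by omega)]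
  have e2 : ∀ z ∈ Ico (2 * k) (2 * k + 6), (bar ∘ u) z = U6 (z - 2 * k) := fun z hz => by
    rw [Function.comp, e1 z hz]; rfl
  have e3 : (bar ∘ u) 3 = (1, 0) := rfl
  have i0 : ∀ z ∈ insert 3 (Ico (2 * k) (2 * k + 6)), (bar ∘ u) z ≠ 0 := by
    rintro z (rfl | hz)
    · rw [e3]; decide
    · rw [e2 z hz]; exact (U6_check _ (by have := hz.2; omega)).1
  have i1 : InjOn (bar ∘ u) (insert 3 (Ico (2 * k) (2 * k + 6))) := by
    rintro y (rfl | hy) z (rfl | hz) h
    · rfl
    · rw [e3, e2 z hz] at h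
      exact absurd h.symm (U6_check _ (by have := hz.2; omega)).2.1
    · rw [e3, e2 y hy] at h
      exact absurd h (U6_check _ (by have := hy.2; omega)).2.1
    · rw [e2 y hy, e2 z hz] at h
      obtain ⟨a, b⟩ := hy
      obtain ⟨c, d⟩ := hz
      have := (U6_check _ (by omega)).2.2 _ (by omega) h
      omega
  refine ⟨u, Ico (2 * k) (2 * k + 6), {S | ∃ J : Finset ℕ, S = J ∧ S ⊆ Ico (2 * k) (2 * k + 6) ∧
    J.card = 3 ∧ ∑ q ∈ J, (bar ∘ u) q = 0}, {0}, Ico (2 * k) (2 * k + 6), by simp,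
    ⟨finite_Ico _ _, fun z hz => hz.1, rfl, rfl, ?_⟩, by rw [union_comm]; gcongr; simp,
    disjoint_singleton_right.2 fun h => by have := h.1; omega, by simp, by simp [hρ],
    fun J hJ hc => ?_, fun I T _ hT h => h.bin h1 (by omega)⟩
  · rintro _ ⟨J, rfl, hJ, hc, h0⟩
    refine ⟨hJ, by simp [hc, hρ], ind3 hc.le (i1.mono (hJ.trans (subset_insert _ _))).of_comp
      (fun q hq h => by simpa [e1 q (hJ hq)] using congrArg (·.2.1) h) fun _ h => ?_,
      fun s hs y hy => ?_⟩
    · have := congrArg (·.2.1) h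
      simp only [Prod.snd_sum, Prod.fst_sum] at this
      rw [Finset.sum_congr rfl fun q hq => show (u q).2.1 = 1 by rw [e1 q (hJ hq)]] at this
      simp only [Finset.sum_const, hc] at this
      exact absurd this (by decide)
    · have hyJ : y ∉ J := fun h => hy.elim (fun e => by have := (hJ h).1; omega) fun e => e.2 h
      have hy' : y ∈ insert 3 (Ico (2 * k) (2 * k + 6)) := hy.imp_right fun e => e.1
      have hsub : ((insert y (J.erase s) : Finset ℕ) : Set ℕ) ⊆ insert 3 (Ico (2 * k) (2 * k + 6)) := by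
        rw [Finset.coe_insert, Finset.coe_erase]
        exact insert_subset hy' (sdiff_subset.trans (hJ.trans (subset_insert _ _)))
      rw [← Finset.coe_erase, ← Finset.coe_insert]
      refine ind3 ((Finset.card_insert_le _ _).trans (by rw [Finset.card_erase_of_mem hs]; omega))
        (i1.mono hsub) (fun q hq => i0 q (hsub hq)) fun _ h => hyJ ?_
      rw [Finset.sum_insert (fun e => hyJ (Finset.mem_of_mem_erase e)),
        Finset.sum_erase_eq_sub hs, h0, zero_sub, add_neg_eq_zero] at h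
      exact i1 hy' (Or.inr (hJ hs)) h ▸ hs
  · lift J to Finset ℕ using (finite_Ico _ _).subset hJ
    rw [ncard_coe_finset] at hc
    by_cases h : J.card = 3 ∧ ∑ q ∈ J, (bar ∘ u) q = 0
    · exact Or.inr ⟨J, ⟨J, rfl, hJ, h⟩, union_singleton⟩
    · exact Or.inl (indep_union_of_map bar (LinearIndepOn.singleton (by simp [hu]))
        (by rintro _ rfl; rfl) (ind3 hc (i1.mono (hJ.trans (subset_insert _ _)))
          (fun q hq => i0 q (Or.inr (hJ hq))) fun a b => h ⟨a, b⟩))

end Pool.Agent.MP_a6f858_co.AU
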