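import Pool.Agent.MP_a6f858_co.Minors

/-! Matroid level lemmas on intertwines with uniform matroids. -/

open Set
open scoped Matroid

namespace Pool.Agent.MP_a6f858_co.AU

/-- `N` has a minor isomorphic to `M`. -/
def HasM (M N : Matroid ℕ) : Prop :=
  ∃ N₁ : Matroid ℕ, Matroid.IsMinor N₁ N ∧ ∃ f : ℕ → ℕ, Set.BijOn f N₁.E M.E ∧
    ∀ I ⊆ N₁.E, (N₁.Indep I ↔ M.Indep (f '' I))

/-- `N` has a uniform minor of rank `r` on `n` points. -/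
def HasU (r n : ℕ) (N : Matroid ℕ) : Prop :=
  ∃ N₂ : Matroid ℕ, Matroid.IsMinor N₂ N ∧ N₂.E.Finite ∧ N₂.E.ncard = n ∧
    ∀ I ⊆ N₂.E, (N₂.Indep I ↔ I.ncard ≤ r)

/-- Some matroid has arbitrarily large intertwines with the uniform matroid. -/
def Unb (r n : ℕ) : Prop :=
  ∃ M : Matroid ℕ, M.Finite ∧ ∀ B : ℕ, ∃ N : Matroid ℕ, N.Finite ∧
    (HasM M N ∧ HasU r n N ∧ ∀ N' : Matroid ℕ, Matroid.IsMinor N' N → N' ≠ N →
      ¬ (HasM M N' ∧ HasU r n N')) ∧ B < N.E.ncard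

variable {M N P : Matroid ℕ} {r n : ℕ}

theorem HasM.mono (h : HasM M N) (hP : N ≤m P) : HasM M P :=
  let ⟨N₁, h1, h2⟩ := h
  ⟨N₁, h1.trans hP, h2⟩

theorem HasU.mono (h : HasU r n N) (hP : N ≤m P) : HasU r n P :=
  let ⟨N₁, h1, h2⟩ := h
  ⟨N₁, h1.trans hP, h2⟩

theorem minor_avoid (h : N ≤m P) {e : ℕ} (he : e ∈ P.E) (heN : e ∉ N.E) :
    N ≤m P ／ {e} ∨ N ≤m P ＼ {e} := by
  obtain ⟨C, D, hC, hD, hCD, rfl⟩ := h.exists_eq_contract_delete_disjoint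
  by_cases h1 : e ∈ C
  · exact Or.inl ⟨C, D, by simp [insert_eq_of_mem h1]⟩
  · have h2 : e ∈ D := by_contra fun h2 => heN ⟨⟨he, h1⟩, h2⟩
    refine Or.inr ⟨C, D, ?_⟩
    rw [← Matroid.contract_delete_comm _ (disjoint_singleton_right.2 h1), Matroid.delete_delete,
      singleton_union, insert_eq_of_mem h2]

theorem exists_minimal (Q : Matroid ℕ → Prop) (hN : N.E.Finite) (h : Q N) :
    ∃ N', N' ≤m N ∧ Q N' ∧ ∀ N'', N'' ≤m N' → N'' ≠ N' → ¬ Q N'' := by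
  obtain ⟨N', ⟨h1, h2⟩, h3⟩ := (measure fun N' : Matroid ℕ => N'.E.ncard).wf.has_min
    {N' | N' ≤m N ∧ Q N'} ⟨N, .refl, h⟩
  refine ⟨N', h1, h2, fun N'' h4 h5 h6 => h3 N'' ⟨h4.trans h1, h6⟩ ?_⟩
  exact ncard_lt_ncard (h4.subset.ssubset_of_ne fun e => h5 (h4.eq_of_ground_subset e.ge).symm)
    (hN.subset h1.subset)

theorem finite_ground {T : Set ℕ} (hT : T.Finite) : {M : Matroid ℕ | M.E = T}.Finite := by
  refine Finite.of_finite_image (f := fun M : Matroid ℕ => {I | M.Indep I})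
    (hT.powerset.powerset.subset ?_) fun M hM M' hM' h => ?_
  · rintro _ ⟨M, hM, rfl⟩ I hI
    exact hM ▸ Matroid.Indep.subset_ground hI
  · exact Matroid.ext_indep (hM.trans hM'.symm) fun I _ => Set.ext_iff.1 h I

theorem unb_of {T : Set ℕ} (hT : T.Finite) (H : ∀ B : ℕ, ∃ N M : Matroid ℕ, N.E.Finite ∧
    M.E = T ∧ M ≤m N ∧ HasU r n N ∧ ∃ Y ⊆ N.E, B < Y.ncard ∧
      ∀ y ∈ Y, ¬ HasU r n (N ／ {y}) ∧ ¬ HasM M (N ＼ {y})) : Unb r n := by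
  by_contra hc
  have h1 : ∀ M : Matroid ℕ, ∃ B : ℕ, M.Finite → ∀ N : Matroid ℕ, N.Finite →
      (HasM M N ∧ HasU r n N ∧ ∀ N' : Matroid ℕ, Matroid.IsMinor N' N → N' ≠ N →
        ¬ (HasM M N' ∧ HasU r n N')) → N.E.ncard ≤ B := fun M => by
    by_contra h2
    push Not at h2
    exact hc ⟨M, (h2 0).1, fun B => by simpa using (h2 B).2⟩
  choose B hB using h1
  obtain ⟨b, hb⟩ := ((finite_ground hT).image B).bddAbove
  obtain ⟨N, M, hN, hM, hMN, hU, Y, hY, hb', hy⟩ := H b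
  obtain ⟨N', h1, h2, h3⟩ := exists_minimal (fun N' => HasM M N' ∧ HasU r n N') hN
    ⟨⟨M, hMN, id, bijOn_id _, by simp⟩, hU⟩
  have h4 := hB M ⟨hM ▸ hT⟩ N' ⟨hN.subset h1.subset⟩ ⟨h2.1, h2.2, h3⟩
  have h5 : Y ⊆ N'.E := fun y h => by_contra fun h' => (minor_avoid h1 (hY h) h').elim
    (fun h6 => (hy y h).1 (h2.2.mono h6)) fun h6 => (hy y h).2 (h2.1.mono h6)
  have h6 := ncard_le_ncard h5 (hN.subset h1.subset)
  have h7 : B M ≤ b := hb ⟨M, hM, rfl⟩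
  omega

theorem minor_dual (h : N ≤m P) : N✶ ≤m P✶ := by
  obtain ⟨C, D, -, -, hCD, rfl⟩ := h.exists_eq_contract_delete_disjoint
  exact ⟨D, C, by rw [Matroid.dual_contract_delete, Matroid.contract_delete_comm _ hCD.symm]⟩

theorem HasM.dual (h : HasM M N) : HasM M✶ N✶ := by
  obtain ⟨N₁, h1, f, hf, hi⟩ := h
  have e : M = N₁.map f hf.injOn := by
    refine Matroid.ext_indep hf.image_eq.symm fun I hI => ?_
    rw [← hf.image_eq] at hI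
    obtain ⟨J, hJ, rfl⟩ := subset_image_iff.1 hI
    rw [Matroid.map_image_indep_iff hJ, hi J hJ]
  refine ⟨N₁✶, minor_dual h1, f, hf, fun I hI => ?_⟩
  rw [e, Matroid.map_dual, Matroid.map_image_indep_iff hI]

theorem HasU.dual (h : HasU r n N) (hr : r ≤ n) : HasU (n - r) n N✶ := by
  obtain ⟨N₂, h1, hf, hn, hi⟩ := h
  have hb : ∀ B ⊆ N₂.E, B.ncard = r → N₂.IsBase B := fun B hB h =>
    ((hi B hB).2 h.le).isBase_of_maximal fun J hJ hBJ =>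
      eq_of_subset_of_ncard_le hBJ (h ▸ (hi J hJ.subset_ground).1 hJ) (hf.subset hJ.subset_ground)
  refine ⟨N₂✶, minor_dual h1, hf, hn, fun I hI => ?_⟩
  have hI' : I ⊆ N₂.E := hI
  have hc := ncard_sdiff_add_ncard_of_subset hI' hf
  rw [Matroid.dual_indep_iff_exists hI']
  constructor
  · rintro ⟨B, hB, hd⟩
    obtain ⟨B', h2, h3⟩ := exists_subset_card_eq (s := N₂.E) (n := r) (by omega)
    have h4 := hB.ncard_eq_ncard_of_isBase (hb B' h2 h3)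
    have h5 := ncard_le_ncard (subset_sdiff.2 ⟨hB.subset_ground, hd.symm⟩) (hf.subset sdiff_subset)
    omega
  · intro h
    obtain ⟨B, h2, h3⟩ := exists_subset_card_eq (s := N₂.E \ I) (n := r) (by omega)
    exact ⟨B, hb B (h2.trans sdiff_subset) h3, (subset_sdiff.1 h2).2.symm⟩

theorem Unb.dual (h : Unb r n) (hr : r ≤ n) : Unb (n - r) n := by
  obtain ⟨M, hM, H⟩ := h
  refine ⟨M✶, ⟨hM.1⟩, fun B => ?_⟩
  obtain ⟨N, hN, ⟨h1, h2, h3⟩, h4⟩ := H B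
  refine ⟨N✶, ⟨hN.1⟩, ⟨h1.dual, h2.dual hr, fun N' h5 h6 h7 => h3 N'✶ ?_ ?_ ⟨?_, ?_⟩⟩, h4⟩
  · simpa using minor_dual h5
  · exact fun e => h6 (by rw [← e, Matroid.dual_dual])
  · simpa using h7.1.dual
  · simpa [Nat.sub_sub_self hr] using h7.2.dual (Nat.sub_le n r)

theorem HasU.small (h : HasU r n N) {r' n' : ℕ} (h1 : r' ≤ r) (h2 : n' + r ≤ n + r')
    (_h3 : r ≤ n) : HasU r' n' N := by
  obtain ⟨N₂, h4, hf, hn, hi⟩ := h
  obtain ⟨C, hC, c1⟩ := exists_subset_card_eq (s := N₂.E) (n := r - r') (by omega)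
  have hc := ncard_sdiff_add_ncard_of_subset hC hf
  obtain ⟨T, hT, c2⟩ := exists_subset_card_eq (s := N₂.E \ C) (n := n') (by omega)
  obtain ⟨hT1, hT2⟩ := subset_sdiff.1 hT
  obtain ⟨N₃, m1, m2, m3⟩ := exists_minor ((hi C hC).2 (by omega)) hT1 hT2
  refine ⟨N₃, m1.trans h4, m2 ▸ hf.subset hT1, m2 ▸ c2, fun J hJ => ?_⟩
  rw [m2] at hJ
  rw [m3 J hJ, hi _ (union_subset (hJ.trans hT1) hC),
    ncard_union_eq (hT2.mono_left hJ) (hf.subset (hJ.trans hT1)) (hf.subset hC)]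
  omega

theorem pull {N₁ M' : Matroid ℕ} {f : ℕ → ℕ} (hf : BijOn f N₁.E M.E)
    (hi : ∀ I ⊆ N₁.E, (N₁.Indep I ↔ M.Indep (f '' I))) (h : M' ≤m M) (hw : Wide M') :
    ∃ N₂, N₂ ≤m N₁ ∧ Wide N₂ ∧ ∀ e ∈ N₂.E, f e ∈ M'.E := by
  obtain ⟨I, hI, hd, hiff⟩ := minor_indep h
  have im : ∀ A ⊆ M.E, f '' (N₁.E ∩ f ⁻¹' A) = A := fun A hA => by
    rw [image_inter_preimage, hf.image_eq, inter_eq_right.2 hA]
  obtain ⟨N₂, m1, m2, m3⟩ := exists_minor (P := N₁) (C := N₁.E ∩ f ⁻¹' I)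
    (T := N₁.E ∩ f ⁻¹' M'.E) ((hi _ inter_subset_left).2 ((im I hI.subset_ground).symm ▸ hI))
    inter_subset_left (Set.disjoint_left.2 fun x hx hx' => Set.disjoint_left.1 hd hx'.2 hx.2)
  refine ⟨N₂, m1, wide_of_iso hw f ?_ fun J hJ => ?_, fun e he => (m2 ▸ he :).2⟩
  · rw [m2]
    exact ⟨fun x hx => hx.2, hf.injOn.mono inter_subset_left, (im _ h.subset).ge⟩
  · rw [m2] at hJ
    rw [m3 J hJ, hi _ (union_subset (hJ.trans inter_subset_left) inter_subset_left), image_union,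
      im I hI.subset_ground, hiff]
    rintro _ ⟨x, hx, rfl⟩
    exact (hJ hx).2

theorem wide_of_hom (hM : Wide M) (f : ℕ → ℕ) (hf : BijOn f N.E M.E)
    (h5 : ∀ B, N.Indep B → B.ncard ≤ 5) (hi : ∀ I ⊆ N.E, M.Indep (f '' I) → N.Indep I) :
    Wide N := by
  have hc : ∀ A ⊆ N.E, (f '' A).ncard = A.ncard := fun A hA => (hf.injOn.mono hA).ncard_image
  refine ⟨by rw [← hc _ subset_rfl, hf.image_eq, hM.1], h5, fun A hA hA5 => ?_⟩
  obtain ⟨J, hJ, J', hJ', hJi, hJ'i, hcard⟩ := hM.2.2 (f '' A)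
    (by rw [← hf.image_eq]; exact image_mono hA) (by rw [hc A hA, hA5])
  have e1 : f '' (A ∩ f ⁻¹' J) = J := by rw [image_inter_preimage, inter_eq_right.2 hJ]
  have e2 : f '' ((N.E \ A) ∩ f ⁻¹' J') = J' := by
    rw [image_inter_preimage, inter_eq_right]
    intro y hy
    obtain ⟨x, hx, rfl⟩ := hf.surjOn (hJ' hy).1
    exact ⟨x, ⟨hx, fun hxA => (hJ' hy).2 (mem_image_of_mem f hxA)⟩, rfl⟩
  have s1 : A ∩ f ⁻¹' J ⊆ N.E := inter_subset_left.trans hA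
  have s2 : (N.E \ A) ∩ f ⁻¹' J' ⊆ N.E := inter_subset_left.trans sdiff_subset
  refine ⟨A ∩ f ⁻¹' J, inter_subset_left, (N.E \ A) ∩ f ⁻¹' J', inter_subset_left,
    hi _ s1 (e1.symm ▸ hJi), hi _ s2 (e2.symm ▸ hJ'i), ?_⟩
  rw [← hc _ s1, ← hc _ s2, e1, e2]
  exact hcard

end Pool.Agent.MP_a6f858_co.AU
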