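import Pool.Agent.MP_a6f858_co.AU.Rat

/-! The ring with the generic gadget has no large uniform minor. -/

open Set Submodule
open scoped Matroid

namespace Pool.Agent.MP_a6f858_co.AU

variable {F : Type} [Field F] [Algebra F2 F] {W : Type} [AddCommGroup W] [Module F W] {k : ℕ}
  {u : ℕ → F × F × W} {I T : Set ℕ} {r : ℕ}

theorem ncard_pair_le {α : Type*} (a b : α) : ({a, b} : Set α).ncard ≤ 2 :=
  (ncard_insert_le _ _).trans (by simp)

theorem vec_ring {q : ℕ} (h : q < 2 * k) : vec k u q = em F W (vv k q) := if_pos h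

theorem Uni.sum_notMem (h : Uni F (vec k u) I T r) (hr : 2 ≤ r) {e e' : ℕ} (he : e ∈ T)
    (he' : e' ∈ T) (h1 : e < 2 * k) (h2 : e' < 2 * k) (hne : e ≠ e') :
    em F W (vv k e + vv k e') ∉ span F (vec k u '' I) := fun h3 => by
  refine h.notMem (singleton_subset_iff.2 he') (by rw [ncard_singleton]; omega) he hne ?_
  rw [em_add, ← vec_ring (u := u) h1, ← vec_ring (u := u) h2] at h3
  have h4 : vec k u e' ∈ span F (vec k u '' ({e'} ∪ I)) := subset_span ⟨e', Or.inl rfl, rfl⟩
  exact (Submodule.add_mem_iff_left _ h4).1 (span_mono (image_mono subset_union_right) h3)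

theorem case_meet (h : Uni F (vec k u) I T 2) (h6 : 6 ≤ T.ncard) {a b : ℕ} (ha : a ∈ T)
    (hb : b ∈ T) (h1 : a < 2 * k) (h2 : b < 2 * k) (hab : a ≠ b)
    (hL : ¬ Disjoint (LL F W k) (span F (vec k u '' I))) : False := by
  set S := span F (vec k u '' I) with hS
  obtain ⟨l, hl⟩ : ∃ l, LL F W k ≤ S ⊔ span F {l} := by
    rw [disjoint_def] at hL
    push Not at hL
    obtain ⟨_, hx, hx', hne⟩ := hL
    obtain ⟨c, d, rfl⟩ := mem_span_pair.1 hx
    by_cases hc : c = 0
    · refine ⟨_, span_le.2 (pair_subset (mem_sup_right (mem_span_singleton_self _))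
        (mem_sup_left ?_))⟩
      rw [hc, zero_smul, zero_add] at hx' hne
      exact (smul_mem_iff _ (left_ne_zero_of_smul hne)).1 hx'
    · refine ⟨_, span_le.2 (pair_subset ?_ (mem_sup_right (mem_span_singleton_self _)))⟩
      exact (smul_mem_iff _ hc).1 ((Submodule.add_mem_iff_left _ (smul_mem _ d (mem_sup_right
        (mem_span_singleton_self _)))).1 (mem_sup_left hx'))
  have hbad : {e ∈ T | vec k u e ∈ S ⊔ LL F W k}.ncard ≤ 1 := by
    refine (ncard_le_one (h.2.1.subset (sep_subset _ _))).2 fun e he e' he' => by_contra fun hne => ?_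
    obtain ⟨s, hs, _, hx, e1⟩ := mem_sup.1 (sup_le le_sup_left hl he.2)
    obtain ⟨s', hs', _, hx', e2⟩ := mem_sup.1 (sup_le le_sup_left hl he'.2)
    obtain ⟨c, rfl⟩ := mem_span_singleton.1 hx
    obtain ⟨c', rfl⟩ := mem_span_singleton.1 hx'
    have hc : c' ≠ 0 := by
      rintro rfl
      refine h.notMem (empty_subset _) (by simp) he'.1 (notMem_empty _) ?_
      rwa [← e2, zero_smul, add_zero, empty_union]
    refine h.notMem (singleton_subset_iff.2 he'.1) (by simp) he.1 hne ?_
    have e3 : vec k u e = (c / c') • vec k u e' + (s - (c / c') • s') := by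
      rw [← e1, ← e2, smul_add, smul_smul, div_mul_cancel₀ _ hc]; abel
    rw [e3, image_union, span_union]
    exact add_mem_sup (smul_mem _ _ (subset_span ⟨_, rfl, rfl⟩)) (sub_mem hs (smul_mem _ _ hs'))
  set G := T \ {e ∈ T | vec k u e ∈ S ⊔ LL F W k} with hG
  have hc : (univ : Set (F2 × F2)).ncard < G.ncard := by
    have := ncard_sdiff_add_ncard_of_subset (sep_subset T fun e => vec k u e ∈ S ⊔ LL F W k) h.2.1
    rw [ncard_univ, Nat.card_prod, Nat.card_zmod]
    rw [← hG] at this
    omega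
  have hm : ∀ a ∈ T, ∀ b ∈ T, a ≠ b → ∀ e ∈ T, vec k u e ∈ span F (vec k u '' ({a, b} ∪ I)) :=
    fun a ha b hb hab e he => h.mem (pair_subset ha hb) (ncard_pair hab) he
  have hr : ∀ e ∈ G, e < 2 * k := fun e he => by_contra fun h' => he.2 ⟨he.1,
    meet (J' := {e}) (pair_subset h1 h2) (singleton_subset_iff.2 h') (hm a ha b hb hab e he.1)
      (subset_span (mem_image_of_mem _ (Or.inl rfl)))⟩
  obtain ⟨e, he, e', he', hne, h3⟩ := pig (x := vv k) hc fun e he =>
    (rat2 (vec_ring (u := u) (hr e he) ▸ hm a ha b hb hab e he.1)).imp fun c hc => ⟨trivial, hc⟩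
  obtain ⟨f, hf, f', hf', hne', h4⟩ := pig (A := S) (x := fun f => vv k f + vv k e) hc fun f hf => by
    obtain ⟨c, h4⟩ := rat2 (vec_ring (u := u) (hr f hf) ▸ hm e he.1 e' he'.1 hne f hf.1)
    have h5 := add_mem h4 (smul_mem _ (algebraMap F2 F c.2) h3)
    rw [← em_smul, ← em_add, smul_add, add_assoc, add_add_add_comm, ZModModule.add_self, add_zero,
      ← add_smul] at h5
    rcases (by decide : ∀ x : F2, x = 0 ∨ x = 1) (c.1 + c.2) with h6 | h6
    · rw [h6, zero_smul, add_zero, ← vec_ring (u := u) (hr f hf)] at h5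
      exact absurd ⟨hf.1, h5⟩ hf.2
    · rw [h6, one_smul] at h5
      exact (rat1 h5).imp fun c hc => ⟨trivial, em_back hc⟩
  rw [add_add_add_comm, ZModModule.add_self, add_zero] at h4
  exact h.sum_notMem le_rfl hf.1 hf'.1 (hr f hf) (hr f' hf') hne' h4

theorem three_three (h : Uni F (vec k u) I T r) (hI : I.Finite) (hr : 3 ≤ r) (hn : r + 3 ≤ T.ncard)
    (h1 : 3 ≤ (T ∩ Iio (2 * k)).ncard) (h2 : 3 ≤ (T \ Iio (2 * k)).ncard) : False := by
  obtain ⟨J, hJ, c1⟩ := exists_subset_card_eq h1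
  obtain ⟨J', hJ', c2⟩ := exists_subset_card_eq h2
  have hJT := hJ.trans inter_subset_left
  have hJT' := hJ'.trans sdiff_subset
  have c3 := ncard_sdiff_add_ncard_of_subset (union_subset hJT hJT') h.2.1
  have c4 := ncard_union_le J J'
  obtain ⟨A, hA, c5⟩ := exists_subset_card_eq (s := T \ (J ∪ J')) (n := r - 3) (by omega)
  obtain ⟨a1, a2⟩ := subset_sdiff.1 hA
  have h3 := h.move a1 (T' := J ∪ J') (subset_sdiff.2 ⟨union_subset hJT hJT', a2.symm⟩) (r' := 3)
    (by omega)
  have hf := (h.2.1.subset a1).union hI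
  have h4 := ncard_le_of_span ((h3.2.2 J' subset_union_right).2 c2.le) (T := vec k u '' (A ∪ I) ∪
    {em F W (tv k), em F W (xv k (k - 1))}) ((hf.image _).union (toFinite _)) (by
      rw [span_union]
      rintro q (hq | hq)
      · exact meet (J' := {q}) (hJ.trans inter_subset_right) (singleton_subset_iff.2 (hJ' hq).2)
          (h3.mem subset_union_left c1 (Or.inr hq)) (subset_span (mem_image_of_mem _ (Or.inl rfl)))
      · exact mem_sup_left (subset_span (mem_image_of_mem _ hq)))
  rw [ncard_union_eq (h3.1.mono_right subset_union_right).symm (h.2.1.subset hJT') hf] at h4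
  have h5 := ncard_union_le (vec k u '' (A ∪ I)) {em F W (tv k), em F W (xv k (k - 1))}
  have h6 := ncard_image_le (f := vec k u) hf
  have h7 := ncard_pair_le (em F W (tv k)) (em F W (xv k (k - 1)))
  omega

theorem ring_le (h : Uni F (vec k u) I T r) (hr : 2 ≤ r)
    (hL : Disjoint (LL F W k) (span F (vec k u '' I))) : (T ∩ Iio (2 * k)).ncard ≤ r + 1 := by
  by_contra hc
  refine Uni.bin (v := vv k) (I := I ∩ Iio (2 * k)) (T := T ∩ Iio (2 * k)) ⟨h.1.mono
    inter_subset_left inter_subset_left, h.2.1.subset inter_subset_left, fun J hJ => ?_⟩ hr (by omega)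
  have h1 : J ∪ I ∩ Iio (2 * k) ⊆ Iio (2 * k) :=
    union_subset (hJ.trans inter_subset_right) inter_subset_right
  rw [← h.2.2 J (hJ.trans inter_subset_left), ← vec_indep (u := u) h1]
  refine ⟨fun h2 => ?_, fun h2 => h2.mono (union_subset_union_right _ inter_subset_left)⟩
  rw [← inter_union_sdiff I (Iio (2 * k)), ← union_assoc]
  refine h2.union (((h.2.2 ∅ (empty_subset _)).2 (by simp)).mono fun q hq => Or.inr hq.1)
    (disjoint_def.2 fun x h3 h4 => disjoint_def.1 hL x (inf_le_LL (span_ring h1 h3)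
      (span_gad (fun _ h => h.2) h4)) (span_mono (image_mono sdiff_subset) h4))

theorem free_gen {Z P Q : Set ℕ} {n : ℕ} (hf : Z.Finite) (hZ : Z ⊆ Ici (2 * k))
    (hn : Z.ncard + 2 = n) (hr : 2 ≤ r) (hrn : r + 4 ≤ n) (hP : P ⊆ Z) (hQ : Q ⊆ Z)
    (cP : P.ncard + 1 = r) (cQ : Q.ncard + 1 = r) (hPQ : P ≠ Q)
    (mP : (0, 1, 0) ∈ span F (u '' P)) (mQ : (1, 1, 0) ∈ span F (u '' Q))
    (hIT : I ∪ T ⊆ Iio (2 * k) ∪ Z) (hT : T.ncard = n) : ¬ Uni F (vec k u) I T r := by
  intro h
  have hI : I.Finite := ((finite_Iio _).union hf).subset (subset_union_left.trans hIT)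
  have h2 : T \ Iio (2 * k) ⊆ Z := fun q hq => (hIT (Or.inr hq.1)).resolve_left hq.2
  have c1 := ncard_inter_add_ncard_sdiff_eq_ncard T (Iio (2 * k)) h.2.1
  have c2 := ncard_sdiff_add_ncard_of_subset h2 hf
  by_cases hL : Disjoint (LL F W k) (span F (vec k u '' I))
  · have c3 := ring_le h hr hL
    have c4 : (T ∩ Iio (2 * k)).ncard = 2 ∨ (T ∩ Iio (2 * k)).ncard = 3 ∧ r = 2 := by
      by_contra hc
      exact three_three h hI (by omega) (by omega) (by omega) (by omega)
    obtain ⟨J, hJ, c5⟩ := exists_subset_card_eq (s := T \ Iio (2 * k)) (n := r) (by omega)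
    have key : ∀ R ⊆ Z, R.ncard + 1 = r → ∀ c : F2 × F2,
        (algebraMap F2 F c.1, algebraMap F2 F c.2, 0) ∈ span F (u '' R) → R ⊆ T →
        ∀ e ∈ T ∩ Iio (2 * k), em F W (vv k e + (c.1 • tv k + c.2 • xv k (k - 1))) ∉
          span F (vec k u '' I) := fun R hR cR c mR hRT e he h3 => by
      refine h.notMem hRT (by omega) he.1 (fun h4 => (not_lt.2 (show 2 * k ≤ e from hZ (hR h4))) he.2) ?_
      have h4 := apply_mem_span_image_of_mem_span (gv k) mR
      rw [image_image, image_congr (g := vec k u) fun q hq =>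
        (if_neg (not_lt.2 (hZ (hR hq)))).symm, gv_apply, Prod.mk_zero_zero, add_zero] at h4
      rw [em_add, em_add, em_smul, em_smul, ← vec_ring (u := u) he.2] at h3
      exact (Submodule.add_mem_iff_left _ (span_mono (image_mono subset_union_left) h4)).1
        (span_mono (image_mono subset_union_right) h3)
    obtain ⟨e, he, e', he', hne, h3⟩ := pig (A := span F (vec k u '' I)) (x := vv k)
      (G := T ∩ Iio (2 * k)) (p := tv k) (q := xv k (k - 1))
      (C := {c | c ≠ (0, 0) ∧ (P ⊆ T → c ≠ (0, 1)) ∧ (Q ⊆ T → c ≠ (1, 1))}) (by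
        have d1 : ∀ c : F2 × F2, c ≠ (0, 0) → c = (1, 0) ∨ c = (0, 1) ∨ c = (1, 1) := by decide
        rcases c4 with c4 | ⟨c4, rfl⟩
        · have e : Z ⊆ T := ((eq_of_subset_of_ncard_le h2 (by omega) hf).ge).trans sdiff_subset
          refine (ncard_le_ncard (t := {(1, 0)}) fun c hc => ?_).trans_lt (by simp [c4])
          exact ((d1 c hc.1).resolve_right fun h => h.elim (hc.2.1 (hP.trans e))
            (hc.2.2 (hQ.trans e)))
        · obtain ⟨p, rfl⟩ := ncard_eq_one.1 (show P.ncard = 1 by omega)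
          obtain ⟨q, rfl⟩ := ncard_eq_one.1 (show Q.ncard = 1 by omega)
          by_cases hp : p ∈ T
          · refine (ncard_le_ncard (t := {(1, 0), (1, 1)}) fun c hc => ?_).trans_lt
              ((ncard_pair_le _ _).trans_lt (by omega))
            exact (d1 c hc.1).imp_right fun h => h.resolve_left (hc.2.1 (by simpa))
          · have hq : q ∈ T := by_contra fun hq => hPQ (by
              rw [(ncard_le_one (hf.subset sdiff_subset)).1 (by omega : (Z \ (T \ Iio (2 * k))).ncard ≤ 1)
                p ⟨hP rfl, fun h => hp h.1⟩ q ⟨hQ rfl, fun h => hq h.1⟩])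
            refine (ncard_le_ncard (t := {(1, 0), (0, 1)}) fun c hc => ?_).trans_lt
              ((ncard_pair_le _ _).trans_lt (by omega))
            exact (d1 c hc.1).imp_right fun h => h.resolve_right (hc.2.2 (by simpa)))
      fun e he => by
        obtain ⟨c, hc⟩ := rat1 (vec_ring (u := u) he.2 ▸ meet (J := {e})
          (singleton_subset_iff.2 he.2) (fun q hq => (hJ hq).2)
          (subset_span (mem_image_of_mem _ (Or.inl rfl))) (h.mem (hJ.trans sdiff_subset) c5 he.1))
        have h3 := em_back (u := u) hc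
        refine ⟨c, ⟨?_, fun h4 => ?_, fun h4 => ?_⟩, h3⟩ <;> rintro rfl
        · refine h.notMem (empty_subset _) (by simp; omega) he.1 (notMem_empty _) ?_
          simpa [vec_ring he.2] using h3
        · exact key P hP cP (0, 1) (by simpa) h4 e he h3
        · exact key Q hQ cQ (1, 1) (by simpa) h4 e he h3
    exact h.sum_notMem hr he.1 he'.1 he.2 he'.2 hne h3
  · obtain ⟨a, b, ha, hb, hab⟩ := (one_lt_ncard_iff (h.2.1.subset inter_subset_left)).1
      (by omega : 1 < (T ∩ Iio (2 * k)).ncard)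
    have c3 := ncard_sdiff_add_ncard_of_subset (pair_subset ha.1 hb.1) h.2.1
    rw [ncard_pair hab] at c3
    obtain ⟨A, hA, c5⟩ := exists_subset_card_eq (s := T \ {a, b}) (n := r - 2) (by omega)
    have c6 := ncard_sdiff_add_ncard_of_subset (hA.trans sdiff_subset) h.2.1
    exact case_meet (h.move (hA.trans sdiff_subset) subset_rfl (by omega)) (by omega)
      ⟨ha.1, fun h => (hA h).2 (Or.inl rfl)⟩ ⟨hb.1, fun h => (hA h).2 (Or.inr rfl)⟩ ha.2 hb.2 hab
      fun h => hL (h.mono_right (span_mono (image_mono subset_union_right)))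

end Pool.Agent.MP_a6f858_co.AU
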