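import Mathlib.Algebra.Module.Submodule.Union
import Mathlib.FieldTheory.IsAlgClosed.AlgebraicClosure
import Pool.Agent.MP_a6f858_co.AU.Free
import Pool.Agent.MP_a6f858_co.AU.Bin

/-! The generic gadget, and the main theorem. -/

open Set Submodule
open scoped Matroid

namespace Pool.Agent.MP_a6f858_co.AU

theorem generic {K : Type*} [Field K] [Infinite K] {V : Type*} [AddCommGroup V] [Module K V]
    [FiniteDimensional K V] (v : ℕ → V) {T₀ T : Set ℕ} (h₀ : T₀.Finite) (hT : T.Finite) :
    ∃ v' : ℕ → V, (∀ q ∉ T, v' q = v q) ∧ ∀ J ⊆ T₀ ∪ T, J.ncard ≤ Module.finrank K V →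
      LinearIndepOn K v (J \ T) → LinearIndepOn K v' J := by
  classical
  induction T, hT using Finite.induction_on with
  | empty => exact ⟨v, fun _ _ => rfl, fun J _ _ h => by simpa using h⟩
  | @insert z T hz hT ih =>
    obtain ⟨v', h1, h2⟩ := ih
    have : Finite {J : Set ℕ // J ⊆ T₀ ∪ T ∧ J.ncard < Module.finrank K V} :=
      ((h₀.union hT).powerset.subset fun J hJ => hJ.1).to_subtype
    obtain ⟨x, hx⟩ := exists_forall_notMem_of_forall_ne_top
      (fun J : {J : Set ℕ // J ⊆ T₀ ∪ T ∧ J.ncard < Module.finrank K V} => span K (v' '' J.1))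
      fun ⟨J, hJ, hc⟩ h => by
        have hf := ((h₀.union hT).subset hJ).image v'
        have h3 := finrank_span_finset_le_card (R := K) hf.toFinset
        have h4 := ncard_image_le (f := v') ((h₀.union hT).subset hJ)
        rw [Set.finrank, Finite.coe_toFinset, h, finrank_top, ← ncard_eq_toFinset_card _ hf] at h3
        omega
    refine ⟨Function.update v' z x, fun q hq => ?_, fun J hJ hc h => ?_⟩
    · rw [Function.update_of_ne fun e => hq (Or.inl e), h1 q fun e => hq (Or.inr e)]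
    · have h3 : J \ {z} ⊆ T₀ ∪ T := fun q hq => (hJ hq.1).imp_right fun e => e.resolve_left hq.2
      have e : EqOn v' (Function.update v' z x) (J \ {z}) := fun q hq =>
        (Function.update_of_ne hq.2 ..).symm
      have hf := (h₀.union (hT.insert z)).subset hJ
      have h4 := (h2 _ h3 ((ncard_le_ncard sdiff_subset hf).trans hc)
        (by rwa [sdiff_sdiff, singleton_union])).congr e
      by_cases hzJ : z ∈ J
      · have h5 := ncard_sdiff_singleton_add_one hzJ hf
        rw [← insert_eq_of_mem hzJ, ← insert_sdiff_singleton]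
        refine h4.insert ?_
        rw [Function.update_self, ← e.image_eq]
        exact hx ⟨_, h3, by omega⟩
      · rwa [sdiff_singleton_eq_self hzJ] at h4

variable {F : Type} [Field F] {W : Type} [AddCommGroup W] [Module F W] [FiniteDimensional F W]

theorem coords {V : Type*} [AddCommGroup V] [Module F V] [FiniteDimensional F V] {t a : V}
    (h : ∀ x y : F, x • t + y • a = 0 → x = 0 ∧ y = 0)
    (hW : Module.finrank F W + 2 = Module.finrank F V) : ∃ e : V →ₗ[F] F × F × W,
      Function.Injective e ∧ e t = (1, 0, 0) ∧ e a = (0, 1, 0) := by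
  set g : F × F →ₗ[F] V := (LinearMap.toSpanSingleton F V t).coprod
    (LinearMap.toSpanSingleton F V a) with hg
  have hk : LinearMap.ker g = ⊥ := LinearMap.ker_eq_bot'.2 fun x hx => Prod.ext (h _ _ hx).1 (h _ _ hx).2
  obtain ⟨l, hl⟩ := g.exists_leftInverse_of_injective hk
  have h1 := (LinearMap.range g).finrank_quotient_add_finrank
  rw [LinearMap.finrank_range_of_inj (LinearMap.ker_eq_bot.1 hk)] at h1
  let ε : (V ⧸ LinearMap.range g) ≃ₗ[F] W := LinearEquiv.ofFinrankEq _ _ (by simp at h1; omega)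
  set e : V →ₗ[F] F × F × W := (LinearMap.fst F F F ∘ₗ l).prod ((LinearMap.snd F F F ∘ₗ l).prod
    (ε.toLinearMap ∘ₗ (LinearMap.range g).mkQ)) with he
  have h2 : ∀ y, e (g y) = (y.1, y.2, 0) := fun y => by
    have h3 : l (g y) = y := LinearMap.congr_fun hl y
    have h4 : (LinearMap.range g).mkQ (g y) = 0 := (Quotient.mk_eq_zero _).2 ⟨y, rfl⟩
    simp only [he, LinearMap.prod_apply, Function.prod_apply, LinearMap.comp_apply, h3, h4, map_zero]
    rfl
  refine ⟨e, LinearMap.ker_eq_bot.1 (LinearMap.ker_eq_bot'.2 fun x hx => ?_),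
    by simpa [hg] using h2 (1, 0), by simpa [hg] using h2 (0, 1)⟩
  obtain ⟨y, rfl⟩ := (Quotient.mk_eq_zero _).1 (ε.map_eq_zero_iff.1 (congrArg (·.2.2) hx))
  rw [h2] at hx
  rw [show y = 0 from Prod.ext (congrArg (·.1) hx) (congrArg (·.2.1) hx), map_zero]

theorem exists_gadget [Infinite F] {Z P Q : Set ℕ} (hf : Z.Finite) (hZ : Z ⊆ Ici 4) (hP : P ⊆ Z)
    (hQ : Q ⊆ Z) (cP : P.ncard = Module.finrank F W + 1) (cQ : Q.ncard = Module.finrank F W + 1)
    (hPQ : P ≠ Q) : ∃ u : ℕ → F × F × W, u 0 = (0, 1, 0) ∧ u 3 = (1, 0, 0) ∧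
      (0, 1, 0) ∈ span F (u '' P) ∧ (1, 1, 0) ∈ span F (u '' Q) ∧ ∀ J ⊆ {0, 3} ∪ Z,
        J.ncard ≤ Module.finrank F W + 2 → J ≠ insert 0 P → LinearIndepOn F u J := by
  classical
  have z0 : ∀ R ⊆ Z, 0 ∉ R ∧ 3 ∉ R := fun R hR =>
    ⟨fun h => by simpa using hZ (hR h), fun h => by simpa using hZ (hR h)⟩
  have ins : ∀ R ⊆ Z, ∀ q, q ∉ R → (insert q R).ncard = R.ncard + 1 := fun R hR q hq =>
    ncard_insert_of_notMem hq (hf.subset hR)
  have hPf := (hf.subset hP).insert 0
  obtain ⟨v, -, v2⟩ := generic (K := F) (fun _ => (0 : F × W)) finite_empty hPf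
  have v3 : ∀ J ⊆ insert 0 P, J.ncard ≤ Module.finrank F W + 1 → LinearIndepOn F v J :=
    fun J hJ hc => v2 J (hJ.trans subset_union_right) (by simpa [add_comm] using hc)
      (by rw [sdiff_eq_empty.2 hJ]; exact linearIndepOn_empty _ _)
  have v4 : v 0 ∈ span F (v '' P) := by
    rw [(v3 P (subset_insert _ _) cP.le).mem_span_iff]
    intro h
    have := ncard_le_finrank h
    rw [ins P hP 0 (z0 P hP).1] at this
    simp at this
    omega
  obtain ⟨w, w1, w2⟩ := generic (K := F) (LinearMap.inr F F (F × W) ∘ v) hPf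
    ((hf.subset (sdiff_subset (t := P))).insert 3)
  have hV : Module.finrank F (F × F × W) = Module.finrank F W + 2 := by simp; omega
  have w3 : ∀ J ⊆ {0, 3} ∪ Z, J.ncard ≤ Module.finrank F W + 2 → J ≠ insert 0 P →
      LinearIndepOn F w J := fun J hJ hc hne => by
    have h1 : J ⊆ insert 0 P ∪ insert 3 (Z \ P) := fun q hq => by
      have := hJ hq
      simp only [mem_union, mem_insert_iff, mem_singleton_iff, mem_sdiff] at this ⊢
      tauto
    have h2 : J \ insert 3 (Z \ P) ⊆ insert 0 P := fun q hq => (h1 hq.1).resolve_right hq.2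
    refine w2 J h1 (hV ▸ hc) ((v3 _ h2 ?_).map_injOn _ LinearMap.inr_injective.injOn)
    by_contra h3
    have h4 := ins P hP 0 (z0 P hP).1
    exact hne (eq_of_subset_of_ncard_le ((eq_of_subset_of_ncard_le h2 (by omega) hPf).ge.trans
      sdiff_subset) (by omega) (((toFinite _).union hf).subset hJ)).symm
  have w4 : w 0 ∈ span F (w '' P) := by
    rw [w1 0 (by simpa using fun h => absurd h (z0 Z subset_rfl).1), image_congr fun q hq => w1 q
      fun h => h.elim (fun e => (z0 P hP).2 (e ▸ hq)) fun h => h.2 hq, image_comp]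
    exact apply_mem_span_image_of_mem_span _ v4
  have q3 : insert 3 Q ⊆ {0, 3} ∪ Z := insert_subset (by simp) (hQ.trans subset_union_right)
  have n3 : ∀ J : Set ℕ, 3 ∈ J → J ≠ insert 0 P := fun J h e => by
    simp [e, (z0 P hP).2] at h
  obtain ⟨c, s, hs, hc⟩ : ∃ c : F, ∃ s ∈ span F (w '' Q), w 0 = c • w 3 + s := by
    rw [← mem_span_insert, ← image_insert_eq, (w3 _ q3 (by rw [ins Q hQ 3 (z0 Q hQ).2]; omega)
      (n3 _ (mem_insert _ _))).mem_span_iff]
    intro h
    have := ncard_le_finrank h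
    rw [ncard_insert_of_notMem (by simpa using (z0 Q hQ).1) ((hf.subset hQ).insert 3),
      ins Q hQ 3 (z0 Q hQ).2] at this
    omega
  have hc0 : -c ≠ 0 := by
    rw [neg_ne_zero]
    rintro rfl
    refine ((linearIndepOn_insert (z0 Q hQ).1).1 (w3 _ (insert_subset (by simp)
      (hQ.trans subset_union_right)) (by rw [ins Q hQ 0 (z0 Q hQ).1]; omega) fun e => hPQ ?_)).2
      (by simpa [hc])
    rw [← insert_sdiff_self_of_notMem (z0 Q hQ).1, e, insert_sdiff_self_of_notMem (z0 P hP).1]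
  obtain ⟨e, e1, e2, e3⟩ := coords (W := W) (t := -c • w 3) (a := w 0) (fun x y h => by
    have h1 := (LinearIndepOn.pair_iff _ (show 3 ≠ 0 by omega)).1 (w3 {3, 0} (pair_subset
      (by simp) (by simp)) ((ncard_pair_le _ _).trans (by omega)) (n3 _ (by simp))) (x * -c) y
      (by rwa [mul_smul])
    exact ⟨(mul_eq_zero.1 h1.1).resolve_right hc0, h1.2⟩) hV.symm
  have im : ∀ R ⊆ Z, (fun q => e (if q = 3 then -c • w q else w q)) '' R = e '' (w '' R) :=
    fun R hR => by
      rw [image_image]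
      exact image_congr fun q hq => by rw [if_neg fun h : q = 3 => (z0 R hR).2 (h ▸ hq)]
  refine ⟨fun q => e (if q = 3 then -c • w q else w q), e3, e2, ?_, ?_, fun J hJ h1 h2 => ?_⟩
  · rw [im P hP, ← e3]
    exact apply_mem_span_image_of_mem_span _ w4
  · rw [im Q hQ]
    convert apply_mem_span_image_of_mem_span e hs using 1
    rw [eq_neg_add_of_add_eq hc.symm, ← neg_smul, map_add, e2, e3]
    simp
  · refine LinearIndepOn.map_injOn ?_ e e1.injOn
    have := (w3 J hJ h1 h2).units_smul fun q => if q.1 = 3 then Units.mk0 _ hc0 else 1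
    refine (linearIndependent_equiv' (Equiv.refl _) (funext fun q => ?_)).1 this
    simp only [Pi.smul_apply', Function.comp, Equiv.refl_apply]
    split_ifs <;> simp [Units.smul_def]

theorem unb_gen [Algebra F2 F] [Infinite F] {r n : ℕ} (hρ : Module.finrank F W + 2 = r)
    (h2 : r + 4 ≤ n) : Unb r n := by
  have h1 : 2 ≤ r := by omega
  refine ring_inf (F := F) (W := W) (m := n)
    (r₀ := r) (n₀ := n) le_rfl le_rfl (by omega) fun k hk => ?_
  obtain ⟨Z, P, Q, hZf, hZ, hP, hQ, cZ, cP, cQ, hPQ⟩ : ∃ Z P Q : Set ℕ, Z.Finite ∧ Z ⊆ Ici (2 * k) ∧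
      P ⊆ Z ∧ Q ⊆ Z ∧ Z.ncard + 2 = n ∧ P.ncard + 1 = r ∧ Q.ncard + 1 = r ∧ P ≠ Q := by
    refine ⟨Ico (2 * k) (2 * k + n - 2), Ico (2 * k) (2 * k + r - 1), Ico (2 * k + 1) (2 * k + r),
      finite_Ico _ _, fun _ h => h.1, Ico_subset_Ico_right (by omega),
      Ico_subset_Ico (by omega) (by omega), by simp; omega, by simp; omega, by simp; omega,
      fun e => ?_⟩
    have : 2 * k ∈ Ico (2 * k + 1) (2 * k + r) := by rw [← e]; exact ⟨le_rfl, by omega⟩
    simp at this
  obtain ⟨u, u0, u3, mP, mQ, hu⟩ := exists_gadget (F := F) (W := W) hZf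
    (hZ.trans (Ici_subset_Ici.2 (by omega))) hP hQ (by omega) (by omega) hPQ
  have z0 : ∀ q ∈ Z, q ≠ 0 ∧ q ≠ 3 := fun q h => by
    have : 2 * k ≤ q := hZ h
    omega
  refine ⟨u, Z, {P}, ∅, {0, 3} ∪ Z, by omega, ⟨hZf, hZ, u0, u3, ?_⟩, by simp, disjoint_empty _, ?_,
    by simp; omega, fun J hJ hc => ?_, fun I T a b =>
      free_gen hZf hZ cZ h1 h2 hP hQ cP cQ hPQ mP mQ a b⟩
  · intro S hS
    obtain rfl : P = S := hS.symm
    have hf := hZf.subset hP
    refine ⟨hP, by omega, hu _ (hP.trans subset_union_right) (by omega) fun e =>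
      (z0 0 (hP (e.ge (mem_insert _ _)))).1 rfl, fun s hs y hy => ?_⟩
    have hy' : y ∈ ({0, 3} : Set ℕ) ∪ Z := hy.imp (fun e => Or.inr e) fun e => e.1
    have hy0 : y ≠ 0 := hy.elim (fun e => by omega) fun e => (z0 y e.1).1
    have hd : Disjoint (insert y (P \ {s})) {0} := disjoint_singleton_right.2 fun h =>
      h.elim hy0.symm fun h => (z0 0 (hP h.1)).1 rfl
    have hs' : insert y (P \ {s}) ∪ {0} ⊆ {0, 3} ∪ Z := union_subset
      (insert_subset hy' (sdiff_subset.trans (hP.trans subset_union_right))) (by simp)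
    have hk : LinearMap.ker (bar (F := F) (W := W)) ≤ span F (u '' {0}) := by
      intro x hx
      rw [image_singleton, u0, mem_span_singleton]
      have a1 : x.1 = 0 := congrArg (·.1) hx
      have a2 : x.2.2 = 0 := congrArg (·.2) hx
      exact ⟨x.2.1, Prod.ext (by simp [a1]) (Prod.ext (by simp) (by simp [a2]))⟩
    refine indep_map_of_union _ hd hk (hu _ hs' ?_ fun e => ?_)
    · have a1 := ncard_union_le (insert y (P \ {s})) {0}
      have a2 := ncard_insert_le y (P \ {s})
      have a3 := ncard_sdiff_singleton_add_one hs hf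
      rw [ncard_singleton] at a1
      omega
    · rcases e.le (Or.inl (mem_insert _ _)) with h | h
      · exact hy0 h
      · exact hy.elim (z0 y (hP h)).2 fun e => e.2 h
  · rw [ncard_union_eq (Set.disjoint_left.2 fun q h h' => h.elim (z0 q h').1 (z0 q h').2)
      (toFinite _) hZf, ncard_pair (by omega)]
    omega
  · rw [union_empty]
    by_cases e : J = insert 0 P
    · exact Or.inr ⟨P, rfl, e⟩
    · exact Or.inl (hu J hJ (by omega) e)

theorem unb_large {r n : ℕ} (h1 : 2 ≤ r) (h2 : r + 4 ≤ n) : Unb r n :=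
  unb_gen (F := AlgebraicClosure F2) (W := Fin (r - 2) → AlgebraicClosure F2) (by simp; omega) h2

theorem unb_all {r n : ℕ} (h1 : 2 ≤ r) (h2 : r + 2 ≤ n) : Unb r n := by
  by_cases h3 : r + 4 ≤ n
  · exact unb_large h1 h3
  by_cases h4 : r ≤ 3
  · exact unb_small h1 h4 h2 (by omega)
  · have := (unb_large (r := n - r) (n := n) (by omega) (by omega)).dual (by omega)
    rwa [Nat.sub_sub_self (by omega)] at this

end Pool.Agent.MP_a6f858_co.AU
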