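import Pool.Agent.MP_a6f858_co.AU.Vec

/-! Rationality on the binary ring and the line along which the gadget is attached. -/

open Set Submodule
open scoped Matroid

namespace Pool.Agent.MP_a6f858_co.AU

variable {F : Type} [Field F] [Algebra F2 F] {W : Type} [AddCommGroup W] [Module F W] {k : ℕ}

theorem rat0 {G : Set (Fin k → F2)} {b : Fin k → F2}
    (h : em F W b ∈ span F (em F W '' G)) : b ∈ span F2 G := by
  obtain ⟨θ, hθ⟩ := (Algebra.linearMap F2 F).exists_leftInverse_of_injective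
    (LinearMap.ker_eq_bot.2 (algebraMap F2 F).injective)
  have h1 : ∀ y ∈ span F (em F W '' G), ∀ c : F, (fun i => θ ((c • y).1 i)) ∈ span F2 G := by
    intro y hy
    induction hy using span_induction with
    | mem y hy =>
      obtain ⟨g, hg, rfl⟩ := hy
      intro c
      convert smul_mem _ (θ c) (subset_span hg) using 1
      ext i
      simp only [em, Prod.smul_mk, Pi.smul_apply, smul_eq_mul]
      rw [mul_comm, ← Algebra.smul_def, map_smul, smul_eq_mul, mul_comm]
    | zero => intro c; convert Submodule.zero_mem _ using 1; ext i; simp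
    | add y z _ _ hy hz => intro c; convert add_mem (hy c) (hz c) using 1; ext i; simp
    | smul d y _ hy => intro c; rw [smul_smul]; exact hy _
  convert h1 _ h 1 using 1
  ext i
  simpa [em] using (LinearMap.congr_fun hθ (b i)).symm

theorem em_smul (c : F2) (b : Fin k → F2) : em F W (c • b) = algebraMap F2 F c • em F W b := by
  ext <;> simp [em, Algebra.smul_def]

theorem em_span {G : Set (Fin k → F2)} {b : Fin k → F2} (h : b ∈ span F2 G) :
    em F W b ∈ span F (em F W '' G) := by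
  induction h using span_induction with
  | mem y hy => exact subset_span ⟨y, hy, rfl⟩
  | zero => convert Submodule.zero_mem _ using 1; ext <;> simp [em]
  | add y z _ _ hy hz => rw [em_add]; exact add_mem hy hz
  | smul d y _ hy => rw [em_smul]; exact smul_mem _ _ hy

/-- The line along which the gadget is attached. -/
def LL (F W : Type) [Field F] [Algebra F2 F] [AddCommGroup W] [Module F W] (k : ℕ) :
    Submodule F ((Fin k → F) × W) := span F {em F W (tv k), em F W (xv k (k - 1))}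

variable {u : ℕ → F × F × W} {I : Set ℕ}

theorem inf_le_LL {x : (Fin k → F) × W} (h1 : x.2 = 0) (h2 : x ∈ LinearMap.range (gv k)) :
    x ∈ LL F W k := by
  obtain ⟨y, rfl⟩ := h2
  have : y.2.2 = 0 := by simpa [gv_apply, em] using h1
  rw [gv_apply, this, Prod.mk_zero_zero, add_zero]
  exact mem_span_pair.2 ⟨_, _, rfl⟩

theorem span_ring (hI : I ⊆ Iio (2 * k)) {x : (Fin k → F) × W} (h : x ∈ span F (vec k u '' I)) :
    x.2 = 0 :=
  span_le (p := LinearMap.ker (LinearMap.snd F _ W)).2 (by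
    rintro _ ⟨q, hq, rfl⟩
    simp [vec, show q < 2 * k from hI hq, em]) h

theorem span_gad (hI : I ⊆ (Iio (2 * k))ᶜ) {x : (Fin k → F) × W}
    (h : x ∈ span F (vec k u '' I)) : x ∈ LinearMap.range (gv k) :=
  span_le.2 (by
    rintro _ ⟨q, hq, rfl⟩
    exact ⟨u q, (if_neg (hI hq)).symm⟩) h

theorem span_split {x : (Fin k → F) × W} (h : x ∈ span F (vec k u '' I)) :
    ∃ y ∈ span F (vec k u '' (I ∩ Iio (2 * k))), ∃ z ∈ LinearMap.range (gv k), y + z = x := by
  rw [← inter_union_sdiff I (Iio (2 * k)), image_union, span_union, mem_sup] at h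
  obtain ⟨y, hy, z, hz, e⟩ := h
  exact ⟨y, hy, z, span_gad (fun _ h => h.2) hz, e⟩

theorem meet {J J' : Set ℕ} (hJ : J ⊆ Iio (2 * k)) (hJ' : J' ⊆ (Iio (2 * k))ᶜ)
    {x : (Fin k → F) × W} (h : x ∈ span F (vec k u '' (J ∪ I)))
    (h' : x ∈ span F (vec k u '' (J' ∪ I))) : x ∈ span F (vec k u '' I) ⊔ LL F W k := by
  rw [image_union, span_union, mem_sup] at h h'
  obtain ⟨p, hp, s, hs, e⟩ := h
  obtain ⟨p', hp', s', hs', e'⟩ := h'
  obtain ⟨y, hy, z, hz, e''⟩ := span_split (sub_mem hs' hs)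
  have h1 : p - y = p' + z := by
    rw [sub_eq_iff_eq_add, add_assoc, add_comm z, e'', ← add_sub_assoc, e', ← e, add_sub_cancel_right]
  refine mem_sup.2 ⟨s + y, add_mem hs (span_mono (image_mono inter_subset_left) hy), p - y,
    inf_le_LL ?_ (h1 ▸ add_mem (span_gad hJ' hp') hz), by rw [← e]; abel⟩
  rw [Prod.snd_sub, span_ring hJ hp, span_ring inter_subset_right hy, sub_zero]

theorem rat1 {b : Fin k → F2} (h : em F W b ∈ span F (vec k u '' I) ⊔ LL F W k) :
    ∃ c : F2 × F2, b + (c.1 • tv k + c.2 • xv k (k - 1)) ∈ span F2 (vv k '' (I ∩ Iio (2 * k))) := by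
  obtain ⟨s, hs, l, hl, e⟩ := mem_sup.1 h
  obtain ⟨y, hy, z, hz, rfl⟩ := span_split hs
  have hl2 : l.2 = 0 := by
    obtain ⟨a, b, rfl⟩ := mem_span_pair.1 hl
    simp [em]
  have hz2 : z.2 = 0 := by
    simpa [em, hl2, span_ring inter_subset_right hy] using congrArg (·.2) e
  have h1 : em F W b ∈ span F (em F W '' (vv k '' (I ∩ Iio (2 * k)) ∪ {tv k, xv k (k - 1)})) := by
    rw [image_union, span_union, image_pair, image_image, ← e, add_assoc]
    refine add_mem_sup ?_ (add_mem (inf_le_LL hz2 hz) hl)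
    rwa [image_congr (g := vec k u) fun q hq => (if_pos hq.2).symm]
  have h2 := rat0 h1
  rw [span_union, mem_sup] at h2
  obtain ⟨p, hp, _, hq, rfl⟩ := h2
  obtain ⟨a, c, rfl⟩ := mem_span_pair.1 hq
  exact ⟨(a, c), by rwa [add_assoc, ZModModule.add_self, add_zero]⟩

theorem em_back {b : Fin k → F2} (h : b ∈ span F2 (vv k '' (I ∩ Iio (2 * k)))) :
    em F W b ∈ span F (vec k u '' I) := by
  refine span_mono ?_ (em_span h)
  rintro _ ⟨_, ⟨q, hq, rfl⟩, rfl⟩
  exact ⟨q, hq.1, if_pos hq.2⟩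

theorem em_LL (c : F2 × F2) : em F W (c.1 • tv k + c.2 • xv k (k - 1)) ∈ LL F W k := by
  rw [em_add, em_smul, em_smul]
  exact mem_span_pair.2 ⟨_, _, rfl⟩

theorem rat2 {b : Fin k → F2} {e e' : ℕ} (h : em F W b ∈ span F (vec k u '' ({e, e'} ∪ I))) :
    ∃ c : F2 × F2,
      em F W (b + (c.1 • vv k e + c.2 • vv k e')) ∈ span F (vec k u '' I) ⊔ LL F W k := by
  obtain ⟨c, hc⟩ := rat1 (mem_sup_left h)
  have h1 := span_mono (show _ ⊆ {vv k e, vv k e'} ∪ vv k '' (I ∩ Iio (2 * k)) by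
    rw [← image_pair, ← image_union]
    exact image_mono fun q hq => hq.1.imp_right fun h => ⟨h, hq.2⟩) hc
  rw [span_union, mem_sup] at h1
  obtain ⟨_, hq, p, hp, e1⟩ := h1
  obtain ⟨a, d, rfl⟩ := mem_span_pair.1 hq
  refine ⟨(a, d), ?_⟩
  have : b + (a • vv k e + d • vv k e') = p + (c.1 • tv k + c.2 • xv k (k - 1)) := by
    rw [← sub_eq_iff_eq_add, ← ZModModule.sub_eq_add, sub_right_comm, ZModModule.sub_eq_add b, ← e1,
      add_sub_cancel_left]
  rw [this, em_add]
  exact add_mem_sup (em_back hp) (em_LL c)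

theorem pig {A : Submodule F ((Fin k → F) × W)} {G : Set ℕ} {x : ℕ → Fin k → F2}
    {p q : Fin k → F2} {C : Set (F2 × F2)} (hC : C.ncard < G.ncard)
    (h : ∀ e ∈ G, ∃ c ∈ C, em F W (x e + (c.1 • p + c.2 • q)) ∈ A) :
    ∃ e ∈ G, ∃ e' ∈ G, e ≠ e' ∧ em F W (x e + x e') ∈ A := by
  choose! c hc hx using h
  obtain ⟨e, he, e', he', hne, h⟩ := exists_ne_map_eq_of_ncard_lt_of_maps_to hC hc
  refine ⟨e, he, e', he', hne, ?_⟩
  have := add_mem (hx e he) (hx e' he')
  rwa [← em_add, h, add_add_add_comm, ZModModule.add_self, add_zero] at this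

end Pool.Agent.MP_a6f858_co.AU
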