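import Pool.Agent.MP_a6f858_co.AU.Core

/-! Relaxation of a family of circuit-hyperplanes of a linear matroid. -/

open Set Submodule
open scoped Matroid

namespace Pool.Agent.MP_a6f858_co.AU

theorem exists_relax {K : Type*} [Field K] {V : Type*} [AddCommGroup V] [Module K V]
    (v : ℕ → V) {E : Set ℕ} (hE : E.Finite) (𝒳 : Set (Set ℕ)) (hXE : ∀ X ∈ 𝒳, X ⊆ E)
    (h1 : ∀ X ∈ 𝒳, ∀ x ∈ X, LinearIndepOn K v (X \ {x})) {d : ℕ} (hd : ∀ X ∈ 𝒳, X.ncard = d)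
    (h2 : ∀ I ⊆ E, LinearIndepOn K v I → I.ncard ≤ d)
    (h3 : ∀ X ∈ 𝒳, ∃ x ∈ X, ∀ y ∈ E \ X, LinearIndepOn K v (insert y (X \ {x}))) :
    ∃ N : Matroid ℕ, N.E = E ∧ ∀ I, N.Indep I ↔ (I ⊆ E ∧ LinearIndepOn K v I) ∨ I ∈ 𝒳 := by
  have sub : ∀ X ∈ 𝒳, ∀ I ⊆ X, (I ⊆ E ∧ LinearIndepOn K v I) ∨ I ∈ 𝒳 := fun X hX I hI => by
    by_cases h : I = X
    · exact Or.inr (h ▸ hX)
    · obtain ⟨x, hx, hxI⟩ := exists_of_ssubset (hI.ssubset_of_ne h)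
      exact Or.inl ⟨hI.trans (hXE X hX), (h1 X hX x hx).mono
        (subset_sdiff.2 ⟨hI, disjoint_singleton_right.2 hxI⟩)⟩
  refine ⟨(IndepMatroid.ofFinite hE (fun I => (I ⊆ E ∧ LinearIndepOn K v I) ∨ I ∈ 𝒳)
    (Or.inl ⟨empty_subset _, linearIndepOn_empty K v⟩) ?_ ?_ ?_).matroid, rfl, fun I => Iff.rfl⟩
  · rintro I J (hJ | hJ) hIJ
    · exact Or.inl ⟨hIJ.trans hJ.1, hJ.2.mono hIJ⟩
    · exact sub J hJ I hIJ
  · rintro I J (hI | hI) (hJ | hJ) hlt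
    · obtain ⟨e, he, heI, h⟩ := lin_aug (hE.subset hI.1) hI.2 hJ.2 hlt
      exact ⟨e, he, heI, Or.inl ⟨insert_subset (hJ.1 he) hI.1, h⟩⟩
    · by_cases hIX : I ⊆ J
      · obtain ⟨x, hx, hxI⟩ := exists_of_ssubset (hIX.ssubset_of_ne (by
          rintro rfl; exact lt_irrefl _ hlt))
        exact ⟨x, hx, hxI, sub J hJ _ (insert_subset hx hIX)⟩
      · obtain ⟨y, hyI, hyJ⟩ := not_subset.1 hIX
        obtain ⟨x, hx, h3⟩ := h3 J hJ
        have hJf : J.Finite := hE.subset (hXE J hJ)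
        obtain ⟨e, he, heI, h⟩ := lin_aug (hE.subset hI.1) hI.2 (h3 y ⟨hI.1 hyI, hyJ⟩) (by
          rwa [ncard_insert_of_notMem (fun h => hyJ h.1) (hJf.subset sdiff_subset),
            ncard_sdiff_singleton_add_one hx hJf])
        have heJ : e ∈ J := (he.resolve_left fun h => heI (h ▸ hyI)).1
        exact ⟨e, heJ, heI, Or.inl ⟨insert_subset (hXE J hJ heJ) hI.1, h⟩⟩
    · have := h2 J hJ.1 hJ.2
      have := hd I hI
      omega
    · have := hd I hI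
      have := hd J hJ
      omega
  · rintro I (hI | hI)
    · exact hI.1
    · exact hXE I hI

end Pool.Agent.MP_a6f858_co.AU
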