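import Pool.Agent.MP_a6f858_co.AU.Vec
import Pool.Agent.MP_a6f858_co.AU.Relax

/-! The relaxed ring with a gadget has arbitrarily large intertwines. -/

open Set Submodule
open scoped Matroid

namespace Pool.Agent.MP_a6f858_co.AU

variable {F : Type} [Field F] [Algebra F2 F] {W : Type} [AddCommGroup W] [Module F W]

/-- Forget the middle coordinate. -/
def bar : F × F × W →ₗ[F] F × W :=
  (LinearMap.fst F F _).prod (LinearMap.snd F F W ∘ₗ LinearMap.snd F F _)

/-- The even positions of the ground set. -/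
def Xc (k : ℕ) : Set ℕ := XX k \ {2 * k - 2}

theorem mem_Xc {k q : ℕ} : q ∈ Xc k ↔ q + 2 < 2 * k ∧ q % 2 = 0 := by
  simp only [Xc, XX, mem_sdiff, mem_ofPred_eq, mem_singleton_iff]; omega

theorem Xc_finite (k : ℕ) : (Xc k).Finite := (XX_finite k).subset sdiff_subset

theorem Xc_ncard {k : ℕ} (hk : 0 < k) : (Xc k).ncard + 1 = k := by
  rw [Xc, ncard_sdiff_singleton_add_one (show 2 * k - 2 ∈ XX k from ⟨by omega, by omega⟩)
    (XX_finite k), XX_ncard]

theorem Xc_indep {k : ℕ} (hk : 0 < k) (u : ℕ → F × F × W) : LinearIndepOn F (vec k u) (Xc k) :=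
  (vec_indep fun q hq => hq.1.1).2 (indep_XX_sdiff k _ ⟨by omega, by omega⟩)

theorem vec_even {k q : ℕ} (u : ℕ → F × F × W) (hq : q ∈ Xc k) :
    vec k u q = em F W (xv k (q / 2)) := by
  rw [vec, if_pos hq.1.1, vv, if_pos hq.1.2]

/-- A gadget: the sets `S` give circuit-hyperplanes together with the even positions. -/
def Gad (k ρ : ℕ) (u : ℕ → F × F × W) (Z : Set ℕ) (𝒮 : Set (Set ℕ)) : Prop :=
  Z.Finite ∧ Z ⊆ Ici (2 * k) ∧ u 0 = (0, 1, 0) ∧ u 3 = (1, 0, 0) ∧
    ∀ S ∈ 𝒮, S ⊆ Z ∧ S.ncard = ρ + 1 ∧ LinearIndepOn F u S ∧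
      ∀ s ∈ S, ∀ y ∈ insert 3 (Z \ S), LinearIndepOn F (bar ∘ u) (insert y (S \ {s}))

theorem exists_N [FiniteDimensional F W] {k : ℕ} (hk : 3 < k) {u : ℕ → F × F × W} {Z : Set ℕ}
    {𝒮 : Set (Set ℕ)} (h : Gad k (Module.finrank F W) u Z 𝒮) : ∃ N : Matroid ℕ,
      N.E = Iio (2 * k) \ {2 * k - 2} ∪ Z ∧ (∀ I, N.Indep I → I.ncard ≤ k + Module.finrank F W) ∧
      ∀ I, N.Indep I ↔ (I ⊆ N.E ∧ LinearIndepOn F (vec k u) I) ∨ ∃ S ∈ 𝒮, S ∪ Xc k = I := by
  obtain ⟨hf, hZ, -, u3, hS⟩ := h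
  have hv : ∀ z ∈ Z, vec k u z = gv k (u z) := fun z hz => if_neg (not_lt.2 (hZ hz))
  have hd : ∀ z ∈ Z, z ∉ Xc k := fun z hz h => absurd h.1.1 (not_lt.2 (hZ hz))
  obtain ⟨χ, c1, c2, c3⟩ := exists_chi (F := F) (W := W) (k := k) (i := 0) (by omega)
  have p1 : ∀ j < k, bar (χ (em F W (xv k j))) = 0 := fun j hj => by rw [c3 j hj]; rfl
  have p2 : ∀ J, LinearIndepOn F ((bar ∘ₗ χ) ∘ vec k u) J →
      LinearIndepOn F (vec k u) (J ∪ Xc k) := fun J hJ =>
    indep_union_of_map _ (Xc_indep (by omega) u) (fun c hc => by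
      rw [vec_even u hc]; exact p1 _ (by have := hc.1.1; omega)) hJ
  have p3 : ∀ J ⊆ Z, EqOn (bar ∘ u) ((bar ∘ₗ χ) ∘ vec k u) J := fun J hJ z hz => by
    simp [hv z (hJ hz), c1]
  have p4 : ∀ S ∈ 𝒮, ∀ s ∈ S, (S ∪ Xc k) \ {s} = S \ {s} ∪ Xc k := fun S h s hs => by
    rw [union_sdiff_distrib, sdiff_singleton_eq_self (hd s ((hS S h).1 hs))]
  have p5 : ∀ X ∈ (· ∪ Xc k) '' 𝒮, X.ncard = k + Module.finrank F W := by
    rintro _ ⟨S, h, rfl⟩
    have := Xc_ncard (k := k) (by omega)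
    rw [ncard_union_eq (Set.disjoint_left.2 fun z hz => hd z ((hS S h).1 hz))
      (hf.subset (hS S h).1) (Xc_finite k), (hS S h).2.1]
    omega
  have p6 : ∀ I, LinearIndepOn F (vec k u) I → I.ncard ≤ k + Module.finrank F W := fun I hI => by
    simpa using ncard_le_finrank hI
  refine (exists_relax (K := F) (vec k u) (((finite_Iio (2 * k)).subset
    (sdiff_subset (t := {2 * k - 2}))).union hf) ((· ∪ Xc k) '' 𝒮) ?_ ?_ p5 (fun I _ => p6 I)
    ?_).imp fun N ⟨n1, n2⟩ => ⟨n1, fun I hI => ((n2 I).1 hI).elim (fun h => p6 I h.2)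
      fun h => (p5 I h).le, fun I => by rw [n2, n1]; rfl⟩
  · rintro _ ⟨S, h, rfl⟩
    exact union_subset ((hS S h).1.trans subset_union_right) fun q hq => Or.inl ⟨hq.1.1, hq.2⟩
  · rintro _ ⟨S, h, rfl⟩ x (hx | hx)
    · rw [p4 S h x hx]
      exact p2 _ ((((hS S h).2.2.2 x hx 3 (mem_insert _ _)).mono (subset_insert _ _)).congr
        (p3 _ (sdiff_subset.trans (hS S h).1)))
    · have hx' := mem_Xc.1 hx
      obtain ⟨τ, t1, -, t3⟩ := exists_chi (F := F) (W := W) (k := k) (i := x / 2) (by omega)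
      rw [union_sdiff_distrib, sdiff_singleton_eq_self fun h' => hd x ((hS S h).1 h') hx]
      refine indep_union_of_map τ ((Xc_indep (by omega) u).mono sdiff_subset) (fun c hc => ?_)
        ((hS S h).2.2.1.congr fun z hz => by simp [hv z ((hS S h).1 hz), t1])
      have h1 := mem_Xc.1 hc.1
      have h2 : c ≠ x := hc.2
      rw [vec_even u hc.1, t3 _ (by omega), if_neg (by omega)]
      rfl
  · rintro _ ⟨S, h, rfl⟩
    obtain ⟨s1, s2, -, s4⟩ := hS S h
    obtain ⟨s, hs⟩ : S.Nonempty := nonempty_of_ncard_ne_zero (by omega)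
    refine ⟨s, Or.inl hs, fun y ⟨hy, hy'⟩ => ?_⟩
    rw [p4 S h s hs, ← insert_union]
    apply p2
    rcases hy with hy | hy
    · have h1 : y < 2 * k := hy.1
      have h2 : y ≠ 2 * k - 2 := hy.2
      have h3 : ¬ y % 2 = 0 := fun e => hy' (Or.inr (mem_Xc.2 (by omega)))
      obtain ⟨a1, a2⟩ := (linearIndepOn_insert fun h' => by
        have : 2 * k ≤ 3 := hZ (s1 h'.1)
        omega).1 (s4 s hs 3 (mem_insert _ _))
      have e := p3 _ ((sdiff_subset (t := {s})).trans s1)
      refine (a1.congr e).insert ?_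
      rw [← e.image_eq]
      convert a2 using 1
      simp only [Function.comp, LinearMap.comp_apply]
      rw [vec, if_pos h1, vv, if_neg h3, em_add, em_add, map_add, map_add, map_add, map_add,
        p1 _ (by omega), p1 _ (Nat.mod_lt _ (by omega)), c2, u3, add_zero, add_zero]
    · exact (s4 s hs y (Or.inr ⟨hy, fun h' => hy' (Or.inl h')⟩)).congr
        (p3 _ (insert_subset hy (sdiff_subset.trans s1)))

theorem span_bound [FiniteDimensional F W] {k : ℕ} (hk : 0 < k) {u : ℕ → F × F × W} {Q G : Set ℕ}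
    (hQ : LinearIndepOn F (vec k u) Q) (hG : G.Finite)
    (h : ∀ q ∈ Q, pos k q / 2 ∈ G ∧ (pos k q + 1) / 2 % k ∈ G) :
    Q.ncard ≤ G.ncard + 1 + Module.finrank F W := by
  set b := Module.finBasis F W
  set T : Set ((Fin k → F) × W) := em F W '' insert (tv k) (xv k '' G) ∪
    (fun i => (0, b i)) '' univ with hT
  have h1 := ncard_le_of_span hQ (T := T) ((((hG.image _).insert _).image _).union
    (finite_univ.image _)) fun q hq => by
      have ht : em F W (tv k) ∈ span F T := subset_span (Or.inl ⟨_, mem_insert _ _, rfl⟩)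
      have hx : ∀ i ∈ G, em F W (xv k i) ∈ span F T := fun i hi =>
        subset_span (Or.inl ⟨_, Or.inr ⟨i, hi, rfl⟩, rfl⟩)
      obtain ⟨h1, h2⟩ := h q hq
      unfold pos at h1 h2
      unfold vec
      split_ifs at h1 h2 ⊢
      · unfold vv
        split_ifs
        · exact hx _ h1
        · rw [em_add, em_add, show q / 2 + 1 = (q + 1) / 2 by omega]
          exact add_mem (add_mem ht (hx _ h1)) (hx _ h2)
      · rw [gv_apply]
        refine add_mem (smul_mem _ _ ht) (add_mem (smul_mem _ _ (hx _ ?_)) ?_)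
        · rwa [show k - 1 = (2 * k - 2) / 2 by omega]
        · have : (u q).2.2 ∈ span F (range b) := by rw [b.span_eq]; trivial
          have h3 := apply_mem_span_image_of_mem_span (LinearMap.inr F (Fin k → F) W) this
          refine span_mono ?_ h3
          rintro _ ⟨_, ⟨i, rfl⟩, rfl⟩
          exact Or.inr ⟨i, trivial, rfl⟩
  have h2 := ncard_union_le (em F W '' insert (tv k) (xv k '' G))
    ((fun i => ((0, b i) : (Fin k → F) × W)) '' univ)
  have h3 := ncard_image_le (f := em F W) ((hG.image (xv k)).insert (tv k))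
  have h4 := ncard_insert_le (tv k) (xv k '' G)
  have h5 := ncard_image_le (f := xv k) hG
  have h6 := ncard_image_le (f := fun i => ((0, b i) : (Fin k → F) × W)) finite_univ
  rw [ncard_univ, Nat.card_eq_fintype_card, Fintype.card_fin] at h6
  rw [← hT] at h2
  omega

theorem ring_inf [FiniteDimensional F W] {m r n r₀ n₀ : ℕ} (h1 : r ≤ r₀) (h2 : n + r₀ ≤ n₀ + r)
    (h3 : r₀ ≤ n₀) (H : ∀ k, 3 < k → ∃ (u : ℕ → F × F × W) (Z : Set ℕ) (𝒮 : Set (Set ℕ))
      (D T : Set ℕ), Z.ncard ≤ m ∧ Gad k (Module.finrank F W) u Z 𝒮 ∧ T ∪ D ⊆ {0, 3} ∪ Z ∧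
      Disjoint T D ∧ T.ncard = n₀ ∧ D.ncard + r₀ = Module.finrank F W + 2 ∧
      (∀ J ⊆ T, J.ncard ≤ r₀ → LinearIndepOn F u (J ∪ D) ∨ ∃ S ∈ 𝒮, J ∪ D = insert 0 S) ∧
      ∀ I T', I ∪ T' ⊆ Iio (2 * k) ∪ Z → T'.ncard = n → ¬ Uni F (vec k u) I T' r) :
    Unb r n := by
  refine unb_of (finite_Iio (10 * (m + 1))) fun B => ?_
  obtain ⟨k, hk⟩ : ∃ k, k = 4 * (B + 2 * m) + 7 := ⟨_, rfl⟩
  obtain ⟨u, Z, 𝒮, D, T, hm, hG, hT, hTD, hn, hD, hU, hfree⟩ := H k (by omega)
  obtain ⟨N, n1, n2, n3⟩ := exists_N (by omega) hG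
  obtain ⟨hf, hZ, u0, u3, hS⟩ := hG
  have hNf : N.E.Finite := n1 ▸ ((finite_Iio _).subset sdiff_subset).union hf
  have hne : ∀ S ∈ 𝒮, ∃ s ∈ S, ¬ s < 2 * k := fun S h => by
    obtain ⟨s, hs⟩ : S.Nonempty := nonempty_of_ncard_ne_zero (by have := (hS S h).2.1; omega)
    exact ⟨s, hs, not_lt.2 (hZ ((hS S h).1 hs))⟩
  have hb : ∀ I ⊆ Iio (2 * k) \ {2 * k - 2}, (N.Indep I ↔ LinearIndepOn F2 (vv k) I) := by
    intro I hI
    rw [n3, n1, and_iff_right (hI.trans subset_union_left), vec_indep (hI.trans sdiff_subset),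
      or_iff_left]
    rintro ⟨S, h, rfl⟩
    obtain ⟨s, hs, h'⟩ := hne S h
    exact h' (hI (Or.inl hs)).1
  obtain ⟨M, m1, m2, m3⟩ := exists_M (h := m + 1) hk (by omega) hNf (n1 ▸ subset_union_left) hb
    (Nat.lt_succ_of_le ((ncard_le_ncard (fun q hq => (n1 ▸ hq.1 :).resolve_left
      fun h => hq.2 h.1) hf).trans hm))
  have hTf : (T ∪ D).Finite := ((toFinite _).union hf).subset hT
  have hX0 : 0 ∈ Xc k := mem_Xc.2 (by omega)
  have hc := ncard_sdiff_singleton_add_one hX0 (Xc_finite k)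
  have hc' := Xc_ncard (k := k) (by omega)
  have hdis : Disjoint (T ∪ D) (Xc k \ {0}) := Set.disjoint_left.2 fun q hq h => by
    have h4 := mem_Xc.1 h.1
    have h5 : q ≠ 0 := h.2
    rcases hT hq with (h6 | h6) | h6
    · exact h5 h6
    · have : q = 3 := h6
      omega
    · have : 2 * k ≤ q := hZ h6
      omega
  have hsub : T ∪ D ∪ Xc k \ {0} ⊆ N.E := by
    rw [n1]
    refine union_subset (hT.trans (union_subset_union_left _ ?_)) fun q hq =>
      Or.inl ⟨hq.1.1.1, hq.1.2⟩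
    rintro q (rfl | rfl) <;> simp only [mem_sdiff, mem_Iio, mem_singleton_iff] <;> omega
  have card : ∀ J ⊆ T, (J ∪ (D ∪ Xc k \ {0})).ncard + r₀ = J.ncard + k + Module.finrank F W := by
    intro J hJ
    have hJf := hTf.subset (hJ.trans subset_union_left)
    have hDf := hTf.subset subset_union_right
    rw [← union_assoc, ncard_union_eq (hdis.mono_left (union_subset_union_left _ hJ))
      (hJf.union hDf) ((Xc_finite k).subset sdiff_subset), ncard_union_eq (hTD.mono_left hJ) hJf hDf]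
    omega
  have core : ∀ J ⊆ T, (N.Indep (J ∪ (D ∪ Xc k \ {0})) ↔ J.ncard ≤ r₀) := fun J hJ => by
    refine ⟨fun h => by have := n2 _ h; have := card J hJ; omega, fun h => (n3 _).2 ?_⟩
    rw [← union_assoc]
    rcases hU J hJ h with h | ⟨S, hS', h⟩
    · obtain ⟨χ, c1, c2, c3⟩ := exists_chi (F := F) (W := W) (k := k) (i := 0) (by omega)
      refine Or.inl ⟨(union_subset_union_left _ (union_subset_union_left _ hJ)).trans hsub,
        indep_union_of_map χ ((Xc_indep (by omega) u).mono sdiff_subset) (fun c hc => ?_)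
          (h.congr fun q hq => ?_)⟩
      · have h1 := mem_Xc.1 hc.1
        have h2 : c ≠ 0 := hc.2
        rw [vec_even u hc.1, c3 _ (by omega), if_neg (by omega)]
        rfl
      · rcases hT (union_subset_union_left _ hJ hq) with (rfl | rfl) | h6
        · rw [Function.comp, vec_even u hX0, c3 _ (by omega), u0, if_pos (Or.inl rfl)]
        · rw [Function.comp, vec, if_pos (by omega), vv, if_neg (by omega), em_add, em_add, map_add,
            map_add, c2, c3 _ (by omega), c3 _ (Nat.mod_lt _ (by omega)), u3,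
            Nat.mod_eq_of_lt (by omega), if_neg (by omega), if_neg (by omega)]
          simp
        · rw [Function.comp, vec, if_neg (not_lt.2 (hZ h6)), c1]
    · refine Or.inr ⟨S, hS', ?_⟩
      rw [h, insert_union, ← union_insert, insert_sdiff_singleton, insert_eq_of_mem hX0]
  have hU0 : HasU r₀ n₀ N := by
    obtain ⟨N₂, a1, a2, a3⟩ := exists_minor (P := N) (C := D ∪ Xc k \ {0}) (T := T)
      (by simpa using (core ∅ (empty_subset _)).2 (by simp))
      ((subset_union_left.trans subset_union_left).trans hsub)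
      (disjoint_union_right.2 ⟨hTD, hdis.mono_left subset_union_left⟩)
    exact ⟨N₂, a1, a2 ▸ hTf.subset subset_union_left, a2 ▸ hn, fun J hJ => by
      rw [a3 J (a2 ▸ hJ), core J (a2 ▸ hJ)]⟩
  have hCC : CC k ⊆ Iio (2 * k) \ {2 * k - 2} := fun q ⟨a1, a2, a3⟩ =>
    ⟨a2, fun h => by have : q = _ := h; omega⟩
  refine ⟨N, M, hNf, m2, m1, hU0.small h1 h2 h3, CC k, hCC.trans (n1 ▸ subset_union_left),
    by rw [CC_ncard]; omega, fun p hp => ⟨?_, fun hM => ?_⟩⟩
  · rintro ⟨N₂, a1, a2, a3, a4⟩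
    obtain ⟨I, hI, hd, hi⟩ := minor_indep a1
    have hpi : N.Indep {p} := (hb _ (singleton_subset_iff.2 (hCC hp))).2
      (LinearIndepOn.singleton (vv_ne_zero (by omega) hp.2.2))
    have hE : I ∪ N₂.E ⊆ N.E \ {p} := union_subset hI.subset_ground a1.subset
    refine hfree (I ∪ {p}) N₂.E ?_ a3 ⟨disjoint_union_left.2 ⟨hd, disjoint_singleton_left.2
      fun h => (hE (Or.inr h)).2 rfl⟩, a2, fun J hJ => ?_⟩
    · rw [union_right_comm]
      refine union_subset (fun q hq => ?_) (singleton_subset_iff.2 (Or.inl hp.2.1))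
      exact (n1 ▸ (hE hq).1 :).imp_left fun h => h.1
    · have hs : J ∪ I ⊆ N.E \ {p} := union_subset (fun q hq => hE (Or.inr (hJ hq)))
        fun q hq => hE (Or.inl hq)
      rw [← a4 J hJ, hi J hJ, hpi.contract_indep_iff, and_iff_right (subset_sdiff.1 hs).2, n3,
        and_iff_right (union_subset (hs.trans sdiff_subset) hpi.subset_ground), union_assoc,
        or_iff_left]
      rintro ⟨S, hS', h⟩
      rcases (h ▸ Or.inr (Or.inr rfl) : p ∈ S ∪ Xc k) with h4 | h4
      · exact absurd hp.2.1 (not_lt.2 (hZ ((hS S hS').1 h4)))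
      · have := hp.2.2
        have := h4.1.2
        omega
  · obtain ⟨N₂, a1, a2, a3⟩ := m3 _ ⟨∅, {p}, by simp⟩ hM
    obtain ⟨J, hJ, hJc⟩ := exists_subset_card_eq (s := T) (n := r₀) (by omega)
    refine no_wide (ρ := Module.finrank F W) hNf hp.2.1 hp.2.2 (fun Q hQ G hG h => ?_)
      ((core J hJ).2 hJc.le) ?_ (by have := card J hJ; omega) a1 a3 a2
    · rcases (n3 Q).1 hQ with h4 | ⟨S, hS', rfl⟩
      · refine ⟨span_bound (by omega) h4.2 hG h, fun h5 => gen_bound (hk := by omega)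
          ((NN_indep k _ Q).2 (Or.inl ⟨h5, (vec_indep h5).1 h4.2⟩)) hG fun q hq => ?_⟩
        simpa only [pos, if_pos (show q < 2 * k from h5 hq)] using h q hq
      · obtain ⟨s, hs, h'⟩ := hne S hS'
        refine ⟨?_, fun h5 => absurd (h5 (Or.inl hs)) h'⟩
        have h5 : Iio k ⊆ G := fun i hi => by
          have hi' : i < k := hi
          by_cases e : i + 1 = k
          · have := (h s (Or.inl hs)).1
            rwa [pos, if_neg h', show (2 * k - 2) / 2 = i by omega] at this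
          · have := (h (2 * i) (Or.inr (mem_Xc.2 (by omega)))).1
            rwa [pos, if_pos (by omega), show 2 * i / 2 = i by omega] at this
        have h6 := ncard_le_ncard h5 hG
        have h7 := n2 _ hQ
        rw [ncard_Iio_nat] at h6
        omega
    · obtain ⟨b1, b2, b3⟩ := hp
      rw [← union_assoc]
      rintro (h4 | h4)
      · rcases hT (union_subset_union_left _ hJ h4) with (h6 | h6) | h6
        · omega
        · have : p = 3 := h6
          omega
        · have : 2 * k ≤ p := hZ h6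
          omega
      · have := h4.1.1.2
        omega

end Pool.Agent.MP_a6f858_co.AU
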