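import Mathlib.LinearAlgebra.LinearIndependent.BaseChange
import Pool.Agent.MP_a6f858_co.AU.Arc

/-! The binary ring over a larger field, with a gadget attached along a line. -/

open Set Submodule
open scoped Matroid

namespace Pool.Agent.MP_a6f858_co.AU

section Uni

variable {K : Type*} [Field K] {V : Type*} [AddCommGroup V] [Module K V]

theorem ncard_le_finrank [FiniteDimensional K V] {v : ℕ → V} {I : Set ℕ}
    (h : LinearIndepOn K v I) : I.ncard ≤ Module.finrank K V := by
  have := ncard_le_of_span h (finite_range (Module.finBasis K V))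
    (by intro q _; rw [(Module.finBasis K V).span_eq]; trivial)
  refine this.trans ?_
  rw [← image_univ]
  refine (ncard_image_le finite_univ).trans ?_
  simp [ncard_univ]

/-- Modulo `I` the vectors on `T` form a uniform configuration of rank `r`. -/
def Uni (K : Type*) [Field K] {V : Type*} [AddCommGroup V] [Module K V] (v : ℕ → V)
    (I T : Set ℕ) (r : ℕ) : Prop :=
  Disjoint I T ∧ T.Finite ∧ ∀ J ⊆ T, (LinearIndepOn K v (J ∪ I) ↔ J.ncard ≤ r)

variable {v : ℕ → V} {I T : Set ℕ} {r : ℕ}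

theorem Uni.move (h : Uni K v I T r) {A T' : Set ℕ} (hA : A ⊆ T) (hT : T' ⊆ T \ A) {r' : ℕ}
    (hr : A.ncard + r' = r) : Uni K v (A ∪ I) T' r' := by
  obtain ⟨h1, h2⟩ := subset_sdiff.1 hT
  refine ⟨disjoint_union_left.2 ⟨h2.symm, h.1.mono_right h1⟩, h.2.1.subset h1, fun J hJ => ?_⟩
  rw [← union_assoc, h.2.2 _ (union_subset (hJ.trans h1) hA),
    ncard_union_eq (h2.mono_left hJ) (h.2.1.subset (hJ.trans h1)) (h.2.1.subset hA)]
  omega

theorem Uni.notMem (h : Uni K v I T r) {J : Set ℕ} (hJ : J ⊆ T) (hc : J.ncard < r) {e : ℕ}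
    (he : e ∈ T) (heJ : e ∉ J) : v e ∉ span K (v '' (J ∪ I)) := by
  have h1 := (h.2.2 _ (insert_subset he hJ)).2 ((ncard_insert_le e J).trans hc)
  rw [insert_union] at h1
  exact ((linearIndepOn_insert fun h2 => h2.elim heJ fun h3 =>
    Set.disjoint_left.1 h.1 h3 he).1 h1).2

theorem Uni.mem (h : Uni K v I T r) {J : Set ℕ} (hJ : J ⊆ T) (hc : J.ncard = r) {e : ℕ}
    (he : e ∈ T) : v e ∈ span K (v '' (J ∪ I)) := by
  rw [((h.2.2 J hJ).2 hc.le).mem_span_iff, ← insert_union, h.2.2 _ (insert_subset he hJ)]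
  intro h1
  by_contra h2
  rw [ncard_insert_of_notMem (fun h3 => h2 (Or.inl h3)) (h.2.1.subset hJ)] at h1
  omega

theorem Uni.bin {V : Type*} [AddCommGroup V] [Module F2 V] {v : ℕ → V} (h : Uni F2 v I T r)
    (h2 : 2 ≤ r) (hT : r + 2 ≤ T.ncard) : False := by
  obtain ⟨A, hA, c1⟩ := exists_subset_card_eq (s := T) (n := r - 2) (by omega)
  have hc := ncard_sdiff_add_ncard_of_subset hA h.2.1
  obtain ⟨T', hT', c2⟩ := exists_subset_card_eq (s := T \ A) (n := 4) (by omega)
  obtain ⟨hd, hf, hi⟩ := h.move hA hT' (r' := 2) (by omega)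
  obtain ⟨a, b, c, d, hab, hac, had, hbc, hbd, hcd, rfl⟩ := ncard_eq_four.1 c2
  have pair : ∀ x ∈ ({a, b, c, d} : Set ℕ), ∀ y ∈ ({a, b, c, d} : Set ℕ), x ≠ y →
      LinearIndepOn F2 v ({x, y} ∪ (A ∪ I)) := fun x hx y hy hxy => by
    rw [hi _ (pair_subset hx hy), ncard_pair hxy]
  have triple : ∀ z ∈ ({a, b, c, d} : Set ℕ), a ≠ z → b ≠ z →
      ¬ LinearIndepOn F2 v ({a, b, z} ∪ (A ∪ I)) := fun z hz hxz hyz => by
    rw [hi _ (insert_subset (by simp) (pair_subset (by simp) hz)),
      ncard_eq_three.2 ⟨a, b, z, hab, hxz, hyz, rfl⟩]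
    omega
  exact no_four_point_line (fun h => Set.disjoint_left.1 hd h (by simp)) hac hbc hcd
    (pair a (by simp) b (by simp) hab) (pair a (by simp) c (by simp) hac)
    (pair b (by simp) c (by simp) hbc) (pair a (by simp) d (by simp) had)
    (pair b (by simp) d (by simp) hbd) (pair c (by simp) d (by simp) hcd)
    (triple c (by simp) hac hbc) (triple d (by simp) had hbd)

end Uni

variable {F : Type} [Field F] [Algebra F2 F] {W : Type} [AddCommGroup W] [Module F W]

/-- A binary vector viewed over `F`. -/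
def em (F W : Type) [Field F] [Algebra F2 F] [AddCommGroup W] {k : ℕ} (b : Fin k → F2) :
    (Fin k → F) × W := (fun c => algebraMap F2 F (b c), 0)

/-- Gadget coordinates. -/
def gv (k : ℕ) : F × F × W →ₗ[F] (Fin k → F) × W :=
  (LinearMap.toSpanSingleton F _ (em F W (tv k))).coprod
    ((LinearMap.toSpanSingleton F _ (em F W (xv k (k - 1)))).coprod (LinearMap.inr F _ W))

theorem gv_apply (k : ℕ) (x : F × F × W) :
    gv k x = x.1 • em F W (tv k) + (x.2.1 • em F W (xv k (k - 1)) + (0, x.2.2)) := rfl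

/-- The vectors of the ring and of the gadget. -/
def vec (k : ℕ) (u : ℕ → F × F × W) (q : ℕ) : (Fin k → F) × W :=
  if q < 2 * k then em F W (vv k q) else gv k (u q)

omit [Module F W] in
theorem em_add {k : ℕ} (b b' : Fin k → F2) : em F W (b + b') = em F W b + em F W b' := by
  ext <;> simp [em]

theorem em_indep {k : ℕ} {b : ℕ → Fin k → F2} {I : Set ℕ} :
    LinearIndepOn F (fun q => em F W (b q)) I ↔ LinearIndepOn F2 b I := by
  rw [LinearIndepOn, LinearIndepOn, ← linearIndependent_algebraMap_comp_iff (S := F),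
    ← (LinearMap.inl F (Fin k → F) W).linearIndependent_iff_of_injOn
      LinearMap.inl_injective.injOn]
  rfl

theorem vec_indep {k : ℕ} {u : ℕ → F × F × W} {I : Set ℕ} (hI : I ⊆ Iio (2 * k)) :
    LinearIndepOn F (vec k u) I ↔ LinearIndepOn F2 (vv k) I := by
  rw [← em_indep (F := F) (W := W)]
  exact linearIndepOn_congr fun q hq => if_pos (hI hq)

/-- Coordinate functionals over `F`. -/
def cf (k c : ℕ) : (Fin k → F) × W →ₗ[F] F :=
  if h : c < k then LinearMap.proj (⟨c, h⟩ : Fin k) ∘ₗ LinearMap.fst F _ W else 0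

theorem cf_em {k : ℕ} (c : ℕ) (b : Fin k → F2) :
    cf k c (em F W b) = algebraMap F2 F (co k c b) := by
  unfold cf co; split_ifs <;> simp [em]

omit [Algebra F2 F] in
theorem cf_inr {k : ℕ} (c : ℕ) (x : W) : cf k c ((0, x) : (Fin k → F) × W) = 0 := by
  unfold cf; split_ifs <;> simp

/-- A map killing all even positions but `2i` and `2k - 2`. -/
theorem exists_chi {k i : ℕ} (hi : i + 1 < k) : ∃ χ : (Fin k → F) × W →ₗ[F] F × F × W,
    (∀ x, χ (gv k x) = x) ∧ χ (em F W (tv k)) = (1, 0, 0) ∧ ∀ j < k,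
      χ (em F W (xv k j)) = (0, if j = i ∨ j = k - 1 then 1 else 0, 0) := by
  set χ : (Fin k → F) × W →ₗ[F] F × F × W := (cf k 0).prod
    ((cf k (k - 1) + if i = 0 then 0 else cf k i).prod (LinearMap.snd F _ W)) with hχ
  have h0 : ∀ b : Fin k → F2, χ (em F W b) = (algebraMap F2 F (co k 0 b),
      algebraMap F2 F (co k (k - 1) b + if i = 0 then 0 else co k i b), 0) := fun b => by
    rw [hχ]; split_ifs <;> simp [cf_em] <;> rfl
  have h1 : χ (em F W (tv k)) = (1, 0, 0) := by
    rw [h0, co_tv (by omega), co_tv (by omega), co_tv (by omega), if_pos rfl, if_neg (by omega)]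
    split_ifs <;> simp
  have h2 : ∀ j < k, χ (em F W (xv k j)) = (0, if j = i ∨ j = k - 1 then 1 else 0, 0) := by
    intro j hj
    have e : ((co k (k - 1) (xv k j) + if i = 0 then 0 else co k i (xv k j)) : F2) =
        if j = i ∨ j = k - 1 then 1 else 0 := by
      rw [co_xv (by omega), co_xv (by omega)]
      split_ifs <;> first | omega | decide
    rw [h0, e, co_xv (by omega), if_pos rfl]
    split_ifs <;> simp
  refine ⟨χ, fun x => ?_, h1, h2⟩
  have h3 : χ (0, x.2.2) = (0, 0, x.2.2) := by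
    rw [hχ]; split_ifs <;> simp [cf_inr]
  rw [gv_apply, map_add, map_add, map_smul, map_smul, h1, h2 _ (by omega), h3]
  ext <;> simp

end Pool.Agent.MP_a6f858_co.AU
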